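import Mathlib

/-!
Moments of sums of independent cosines, in counting form, and a lower bound for the upper tail.
-/

namespace Pool.Agent.Lib.MP_56a425_co

theorem quartic_bound (x : ℝ) : x * (2 - x) * (x + 2) ^ 2 ≤ 10 := by
  nlinarith [sq_nonneg (x ^ 2 + x - 2.9), sq_nonneg (x - 1.375)]

theorem pointwise_bound (σ s : ℝ) (hσ : 0 < σ) :
    (s - σ / 12) * (2 * σ - s) * (s + 2 * σ) ^ 2 ≤ 10 * σ ^ 4 * (if σ / 12 < s then 1 else 0) := by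
  split_ifs with h
  · by_cases h2 : s ≤ 2 * σ
    · have h3 := quartic_bound (s / σ)
      have h4 : s / σ * (2 - s / σ) * (s / σ + 2) ^ 2 * σ ^ 4 = s * (2 * σ - s) * (s + 2 * σ) ^ 2 := by
        field_simp
      have h5 : s * (2 * σ - s) * (s + 2 * σ) ^ 2 ≤ 10 * σ ^ 4 := by
        rw [← h4]
        exact mul_le_mul_of_nonneg_right h3 (by positivity)
      have h6 : 0 ≤ (2 * σ - s) * (s + 2 * σ) ^ 2 := mul_nonneg (by linarith) (by positivity)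
      nlinarith [mul_nonneg h6 (by positivity : (0 : ℝ) ≤ σ / 12)]
    · push Not at h2
      have h6 : 0 ≤ (s - σ / 12) * (s - 2 * σ) * (s + 2 * σ) ^ 2 := by
        apply mul_nonneg (mul_nonneg _ _) (by positivity)
        · linarith
        · linarith
      have : 0 ≤ 10 * σ ^ 4 := by positivity
      nlinarith
  · push Not at h
    have h6 : 0 ≤ (σ / 12 - s) * (2 * σ - s) * (s + 2 * σ) ^ 2 := by
      apply mul_nonneg (mul_nonneg _ _) (by positivity)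
      · linarith
      · linarith
    nlinarith

/-- Lower bound for the upper tail from the first four moments. -/
theorem tail_lower {Ω : Type*} [Fintype Ω] (S : Ω → ℝ) (σ : ℝ) (hσ : 0 < σ)
    (h1 : ∑ ω, S ω = 0) (h2 : ∑ ω, S ω ^ 2 = Fintype.card Ω * σ ^ 2) (h3 : ∑ ω, S ω ^ 3 = 0)
    (h4 : ∑ ω, S ω ^ 4 ≤ 3 * (Fintype.card Ω * σ ^ 4)) :
    (Fintype.card Ω : ℝ) / 20 ≤ ((Finset.univ.filter (fun ω => σ / 12 < S ω)).card : ℝ) := by
  have hsum : ∑ ω, (S ω - σ / 12) * (2 * σ - S ω) * (S ω + 2 * σ) ^ 2 ≤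
      ∑ ω, 10 * σ ^ 4 * (if σ / 12 < S ω then 1 else 0) :=
    Finset.sum_le_sum (fun ω _ => pointwise_bound σ (S ω) hσ)
  have hL : ∑ ω, (S ω - σ / 12) * (2 * σ - S ω) * (S ω + 2 * σ) ^ 2 =
      -(∑ ω, S ω ^ 4) + (-2 * σ + σ / 12) * (∑ ω, S ω ^ 3) +
      (4 * σ ^ 2 + 2 * σ * (σ / 12)) * (∑ ω, S ω ^ 2) +
      (8 * σ ^ 3 - 4 * σ ^ 2 * (σ / 12)) * (∑ ω, S ω) -
      8 * σ ^ 3 * (σ / 12) * Fintype.card Ω := by
    have : ∀ ω, (S ω - σ / 12) * (2 * σ - S ω) * (S ω + 2 * σ) ^ 2 =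
        -(S ω ^ 4) + (-2 * σ + σ / 12) * (S ω ^ 3) +
        (4 * σ ^ 2 + 2 * σ * (σ / 12)) * (S ω ^ 2) +
        (8 * σ ^ 3 - 4 * σ ^ 2 * (σ / 12)) * (S ω) -
        8 * σ ^ 3 * (σ / 12) := fun ω => by ring
    simp_rw [this]
    rw [Finset.sum_sub_distrib, Finset.sum_add_distrib, Finset.sum_add_distrib,
      Finset.sum_add_distrib, Finset.sum_neg_distrib, ← Finset.mul_sum, ← Finset.mul_sum,
      ← Finset.mul_sum]
    simp only [Finset.sum_const, Finset.card_univ, nsmul_eq_mul]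
    ring
  have hR : ∑ ω, 10 * σ ^ 4 * (if σ / 12 < S ω then (1 : ℝ) else 0) =
      10 * σ ^ 4 * ((Finset.univ.filter (fun ω => σ / 12 < S ω)).card : ℝ) := by
    rw [← Finset.mul_sum, Finset.sum_boole]
  rw [hL, hR, h1, h2, h3] at hsum
  set W : ℝ := (Fintype.card Ω : ℝ)
  set c : ℝ := ((Finset.univ.filter (fun ω => σ / 12 < S ω)).card : ℝ)
  have h5 : W * σ ^ 4 / 2 ≤ 10 * σ ^ 4 * c := by nlinarith
  have h6 : 0 < σ ^ 4 := by positivity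
  have h7 : σ ^ 4 * (W / 20) ≤ σ ^ 4 * c := by linarith
  exact le_of_mul_le_mul_left h7 h6

/-- Product formula for sums over `Fin (k + 1) → α`. -/
theorem sum_cons {α : Type*} [Fintype α] (k : ℕ) (f : (Fin (k + 1) → α) → ℝ) :
    ∑ ξ, f ξ = ∑ v : α, ∑ ξ : Fin k → α, f (Fin.cons v ξ) := by
  rw [← (Fin.consEquiv (fun _ => α)).sum_comp, Fintype.sum_prod_type]
  rfl

theorem moments {α : Type*} [Fintype α] (C : α → ℝ) (h1 : ∑ v, C v = 0)
    (h2 : ∑ v, C v ^ 2 = Fintype.card α / 2) (h3 : ∑ v, C v ^ 3 = 0)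
    (h4 : ∑ v, C v ^ 4 = 3 * Fintype.card α / 8) (k : ℕ) :
    (∑ ξ : Fin k → α, ∑ i, C (ξ i) = 0) ∧
    (∑ ξ : Fin k → α, (∑ i, C (ξ i)) ^ 2 = (Fintype.card α : ℝ) ^ k * (k / 2)) ∧
    (∑ ξ : Fin k → α, (∑ i, C (ξ i)) ^ 3 = 0) ∧
    (∑ ξ : Fin k → α, (∑ i, C (ξ i)) ^ 4 =
      (Fintype.card α : ℝ) ^ k * (3 * k ^ 2 / 4 - 3 * k / 8)) := by
  induction k with
  | zero => simp
  | succ k ih =>
    obtain ⟨i1, i2, i3, i4⟩ := ih
    have hcard : ∑ ξ : Fin k → α, (1 : ℝ) = (Fintype.card α : ℝ) ^ k := by simp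
    have hcardα : ∑ v : α, (1 : ℝ) = (Fintype.card α : ℝ) := by simp
    have key : ∀ a b c : ℕ, ∑ v : α, ∑ ξ : Fin k → α, (c : ℝ) * (C v ^ a * (∑ i, C (ξ i)) ^ b) =
        c * ((∑ v : α, C v ^ a) * (∑ ξ : Fin k → α, (∑ i, C (ξ i)) ^ b)) := by
      intro a b c
      rw [Finset.sum_mul_sum, Finset.mul_sum]
      refine Finset.sum_congr rfl (fun v _ => ?_)
      rw [Finset.mul_sum]
    have h0 : ∑ v : α, C v ^ 0 = Fintype.card α := by simp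
    have i0 : ∑ ξ : Fin k → α, (∑ i, C (ξ i)) ^ 0 = (Fintype.card α : ℝ) ^ k := by simp
    have h1' : ∑ v : α, C v ^ 1 = 0 := by simpa using h1
    have i1' : ∑ ξ : Fin k → α, (∑ i, C (ξ i)) ^ 1 = 0 := by simpa using i1
    refine ⟨?_, ?_, ?_, ?_⟩
    · rw [sum_cons]
      have : ∀ v : α, ∀ ξ : Fin k → α, ∑ i, C ((Fin.cons v ξ : Fin (k + 1) → α) i) =
          ((1 : ℕ) : ℝ) * (C v ^ 1 * (∑ i, C (ξ i)) ^ 0) +
          ((1 : ℕ) : ℝ) * (C v ^ 0 * (∑ i, C (ξ i)) ^ 1) := by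
        intro v ξ
        rw [Fin.sum_univ_succ]
        simp
      simp_rw [this, Finset.sum_add_distrib, key]
      rw [h1', i1']
      ring
    · rw [sum_cons]
      have : ∀ v : α, ∀ ξ : Fin k → α, (∑ i, C ((Fin.cons v ξ : Fin (k + 1) → α) i)) ^ 2 =
          ((1 : ℕ) : ℝ) * (C v ^ 2 * (∑ i, C (ξ i)) ^ 0) +
          ((2 : ℕ) : ℝ) * (C v ^ 1 * (∑ i, C (ξ i)) ^ 1) +
          ((1 : ℕ) : ℝ) * (C v ^ 0 * (∑ i, C (ξ i)) ^ 2) := by
        intro v ξ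
        rw [Fin.sum_univ_succ]
        simp only [Fin.cons_zero, Fin.cons_succ]
        push_cast
        ring
      simp_rw [this, Finset.sum_add_distrib, key]
      rw [h2, i0, h1', i1', h0, i2]
      push_cast
      ring
    · rw [sum_cons]
      have : ∀ v : α, ∀ ξ : Fin k → α, (∑ i, C ((Fin.cons v ξ : Fin (k + 1) → α) i)) ^ 3 =
          ((1 : ℕ) : ℝ) * (C v ^ 3 * (∑ i, C (ξ i)) ^ 0) +
          ((3 : ℕ) : ℝ) * (C v ^ 2 * (∑ i, C (ξ i)) ^ 1) +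
          ((3 : ℕ) : ℝ) * (C v ^ 1 * (∑ i, C (ξ i)) ^ 2) +
          ((1 : ℕ) : ℝ) * (C v ^ 0 * (∑ i, C (ξ i)) ^ 3) := by
        intro v ξ
        rw [Fin.sum_univ_succ]
        simp only [Fin.cons_zero, Fin.cons_succ]
        push_cast
        ring
      simp_rw [this, Finset.sum_add_distrib, key]
      rw [h3, h1', i1', i3]
      ring
    · rw [sum_cons]
      have : ∀ v : α, ∀ ξ : Fin k → α, (∑ i, C ((Fin.cons v ξ : Fin (k + 1) → α) i)) ^ 4 =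
          ((1 : ℕ) : ℝ) * (C v ^ 4 * (∑ i, C (ξ i)) ^ 0) +
          ((4 : ℕ) : ℝ) * (C v ^ 3 * (∑ i, C (ξ i)) ^ 1) +
          ((6 : ℕ) : ℝ) * (C v ^ 2 * (∑ i, C (ξ i)) ^ 2) +
          ((4 : ℕ) : ℝ) * (C v ^ 1 * (∑ i, C (ξ i)) ^ 3) +
          ((1 : ℕ) : ℝ) * (C v ^ 0 * (∑ i, C (ξ i)) ^ 4) := by
        intro v ξ
        rw [Fin.sum_univ_succ]
        simp only [Fin.cons_zero, Fin.cons_succ]
        push_cast
        ring
      simp_rw [this, Finset.sum_add_distrib, key]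
      rw [h4, i0, h3, h2, i2, h1', h0, i4]
      push_cast
      ring

end Pool.Agent.Lib.MP_56a425_co
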