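import Mathlib
import Pool.Agent.Lib.MP_56a425_co.Moments

/-!
The standard character of `ℤ/p`, cosines, and geometric sums.
-/

namespace Pool.Agent.Lib.MP_56a425_co

variable {p : ℕ} [NeZero p]

/-- The standard additive character of `ℤ/p`, with values in `ℂ`. -/
noncomputable def e (v : ZMod p) : ℂ := ZMod.stdAddChar v

/-- The real part of `e`, that is `cos (2 π v / p)`. -/
noncomputable def C (v : ZMod p) : ℝ := (e v).re

/-- `h v = (1 + C v) / 2`, that is `cos² (π v / p)`. -/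
noncomputable def h (v : ZMod p) : ℝ := (1 + C v) / 2

theorem e_add (u v : ZMod p) : e (u + v) = e u * e v := by
  unfold e
  exact AddChar.map_add_eq_mul _ u v

theorem e_zero : e (0 : ZMod p) = 1 := by
  unfold e
  exact AddChar.map_zero_eq_one _

theorem norm_e (v : ZMod p) : ‖e v‖ = 1 := by
  unfold e
  rw [ZMod.stdAddChar_apply]
  exact Circle.norm_coe _

theorem e_nsmul (n : ℕ) (v : ZMod p) : e ((n : ZMod p) * v) = e v ^ n := by
  induction n with
  | zero => simp [e_zero]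
  | succ n ih =>
    rw [Nat.cast_succ, add_mul, one_mul, e_add, ih, pow_succ]

theorem e_neg (v : ZMod p) : e (-v) = (starRingEnd ℂ) (e v) := by
  have h1 : e (-v) * e v = 1 := by rw [← e_add, neg_add_cancel, e_zero]
  have h2 : (starRingEnd ℂ) (e v) * e v = 1 := by
    rw [← Complex.normSq_eq_conj_mul_self, Complex.normSq_eq_norm_sq, norm_e]
    simp
  have h3 : e v ≠ 0 := by
    intro h
    have := norm_e v
    rw [h] at this
    simp at this
  exact mul_right_cancel₀ h3 (h1.trans h2.symm)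

theorem sq_add_sq (v : ZMod p) : (e v).re ^ 2 + (e v).im ^ 2 = 1 := by
  have h1 := norm_e v
  have h2 : Complex.normSq (e v) = 1 := by rw [Complex.normSq_eq_norm_sq, h1]; norm_num
  rw [Complex.normSq_apply] at h2
  nlinarith

theorem C_le_one (v : ZMod p) : C v ≤ 1 := by
  have h1 := sq_add_sq v
  unfold C
  nlinarith [sq_nonneg (e v).im]

theorem neg_one_le_C (v : ZMod p) : -1 ≤ C v := by
  have h1 := sq_add_sq v
  unfold C
  nlinarith [sq_nonneg (e v).im]

theorem h_nonneg (v : ZMod p) : 0 ≤ h v := by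
  unfold h
  linarith [neg_one_le_C v]

theorem h_le_one (v : ZMod p) : h v ≤ 1 := by
  unfold h
  linarith [C_le_one v]

/-- `cos a + cos b ≤ 2 |cos ((a + b) / 2)|`. -/
theorem C_add_C_le (u v : ZMod p) : C u + C v ≤ 2 * Real.sqrt (h (u + v)) := by
  have h1 := sq_add_sq u
  have h2 := sq_add_sq v
  have h3 : C (u + v) = (e u).re * (e v).re - (e u).im * (e v).im := by
    unfold C
    rw [e_add, Complex.mul_re]
  have h4 : ((C u + C v) / 2) ^ 2 ≤ h (u + v) := by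
    unfold h
    rw [h3]
    unfold C
    nlinarith [sq_nonneg ((e u).im - (e v).im)]
  have h5 := Real.le_sqrt_of_sq_le h4
  linarith

theorem norm_one_add_e_sq (v : ZMod p) : ‖1 + e v‖ ^ 2 = 4 * h v := by
  have h1 := sq_add_sq v
  rw [← Complex.normSq_eq_norm_sq, Complex.normSq_apply]
  unfold h C
  simp only [Complex.add_re, Complex.one_re, Complex.add_im, Complex.one_im]
  nlinarith

theorem sum_C_mul (r : ZMod p) (hr : r ≠ 0) : ∑ v : ZMod p, C (v * r) = 0 := by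
  have h1 := AddChar.sum_mulShift r (ZMod.isPrimitive_stdAddChar p)
  rw [if_neg hr] at h1
  have h2 : ∑ v : ZMod p, C (v * r) = (∑ v : ZMod p, (ZMod.stdAddChar (v * r) : ℂ)).re := by
    rw [Complex.re_sum]
    rfl
  rw [h2, h1]
  simp

theorem C_mul_two (v : ZMod p) : C v ^ 2 = (1 + C (v * 2)) / 2 := by
  have h1 := sq_add_sq v
  have h2 : v * 2 = v + v := by ring
  unfold C
  rw [h2, e_add, Complex.mul_re]
  nlinarith

theorem C_mul_three (v : ZMod p) : C v ^ 3 = (3 * C v + C (v * 3)) / 4 := by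
  have h1 := sq_add_sq v
  have h2 : v * 3 = v + v + v := by ring
  have h3 : (e v).im ^ 2 = 1 - (e v).re ^ 2 := by linarith
  unfold C
  rw [h2, e_add, e_add, Complex.mul_re, Complex.mul_re, Complex.mul_im]
  have : ((e v).re * (e v).re - (e v).im * (e v).im) * (e v).re -
      ((e v).re * (e v).im + (e v).im * (e v).re) * (e v).im =
      (e v).re ^ 3 - 3 * (e v).re * (e v).im ^ 2 := by ring
  rw [this, h3]
  ring

theorem C_mul_four (v : ZMod p) : C v ^ 4 = (3 + 4 * C (v * 2) + C (v * 4)) / 8 := by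
  have h1 := C_mul_two v
  have h2 := C_mul_two (v * 2)
  have h3 : v * 2 * 2 = v * 4 := by ring
  rw [h3] at h2
  have h4 : C v ^ 4 = (C v ^ 2) ^ 2 := by ring
  rw [h4, h1]
  nlinarith

theorem moments_C (h2 : (2 : ZMod p) ≠ 0) (h3 : (3 : ZMod p) ≠ 0) (h4 : (4 : ZMod p) ≠ 0)
    (h1 : (1 : ZMod p) ≠ 0) :
    (∑ v : ZMod p, C v = 0) ∧ (∑ v : ZMod p, C v ^ 2 = (Fintype.card (ZMod p) : ℝ) / 2) ∧
    (∑ v : ZMod p, C v ^ 3 = 0) ∧
    (∑ v : ZMod p, C v ^ 4 = 3 * (Fintype.card (ZMod p) : ℝ) / 8) := by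
  have s1 : ∑ v : ZMod p, C v = 0 := by
    have := sum_C_mul (1 : ZMod p) h1
    simpa using this
  have s2 := sum_C_mul (2 : ZMod p) h2
  have s3 := sum_C_mul (3 : ZMod p) h3
  have s4 := sum_C_mul (4 : ZMod p) h4
  refine ⟨s1, ?_, ?_, ?_⟩
  · simp_rw [C_mul_two]
    rw [← Finset.sum_div, Finset.sum_add_distrib, s2]
    simp
  · simp_rw [C_mul_three]
    rw [← Finset.sum_div, Finset.sum_add_distrib, ← Finset.mul_sum, s1, s3]
    simp
  · simp_rw [C_mul_four]
    rw [← Finset.sum_div, Finset.sum_add_distrib, Finset.sum_add_distrib, ← Finset.mul_sum, s2, s4]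
    simp
    ring

theorem norm_e_sub_one (v : ZMod p) : 4 * (v.valMinAbs.natAbs : ℝ) / p ≤ ‖e v - 1‖ := by
  have hp : (0 : ℝ) < p := by exact_mod_cast Nat.pos_of_ne_zero (NeZero.ne p)
  have h1 : e v = Complex.exp (Complex.I * ((2 * Real.pi * (v.valMinAbs : ℝ) / p : ℝ) : ℂ)) := by
    have h2 := ZMod.stdAddChar_coe (N := p) v.valMinAbs
    rw [ZMod.coe_valMinAbs] at h2
    unfold e
    rw [h2]
    congr 1
    push_cast
    ring
  rw [h1, Complex.norm_exp_I_mul_ofReal_sub_one]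
  have h3 : 2 * Real.pi * (v.valMinAbs : ℝ) / p / 2 = Real.pi * (v.valMinAbs : ℝ) / p := by ring
  rw [h3]
  have h4 : (v.valMinAbs.natAbs : ℝ) = |(v.valMinAbs : ℝ)| := by
    rw [Nat.cast_natAbs, Int.cast_abs]
  have h5 : (v.valMinAbs.natAbs : ℝ) * 2 ≤ p := by
    have := ZMod.natAbs_valMinAbs_le v
    have h6 : v.valMinAbs.natAbs * 2 ≤ p := by omega
    exact_mod_cast h6
  rw [h4] at h5 ⊢
  have h7 : |Real.pi * (v.valMinAbs : ℝ) / p| = Real.pi * |(v.valMinAbs : ℝ)| / p := by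
    rw [abs_div, abs_mul, abs_of_pos Real.pi_pos, abs_of_pos hp]
  have h8 : |Real.pi * (v.valMinAbs : ℝ) / p| ≤ Real.pi / 2 := by
    rw [h7, div_le_div_iff₀ hp (by norm_num)]
    nlinarith [Real.pi_pos]
  have h9 := Real.mul_abs_le_abs_sin h8
  rw [h7] at h9
  rw [Real.norm_eq_abs, abs_mul, abs_of_pos (by norm_num : (0 : ℝ) < 2)]
  have h10 : 2 / Real.pi * (Real.pi * |(v.valMinAbs : ℝ)| / p) = 2 * |(v.valMinAbs : ℝ)| / p := by
    field_simp
  rw [h10] at h9
  calc 4 * |(v.valMinAbs : ℝ)| / p = 2 * (2 * |(v.valMinAbs : ℝ)| / p) := by ring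
    _ ≤ 2 * |Real.sin (Real.pi * (v.valMinAbs : ℝ) / p)| := by linarith

/-- Geometric sums of `e` away from small residues. -/
theorem geom_bound (v : ZMod p) (Δ L : ℕ) (hv : Δ < v.valMinAbs.natAbs) :
    ‖∑ j ∈ Finset.range L, e v ^ j‖ ≤ p / (2 * (Δ + 1)) := by
  have hp : (0 : ℝ) < p := by exact_mod_cast Nat.pos_of_ne_zero (NeZero.ne p)
  have h1 := norm_e_sub_one v
  have h2 : ((Δ : ℝ) + 1) ≤ v.valMinAbs.natAbs := by exact_mod_cast hv
  have h3 : 4 * ((Δ : ℝ) + 1) / p ≤ ‖e v - 1‖ := by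
    refine le_trans ?_ h1
    apply div_le_div_of_nonneg_right _ hp.le
    linarith
  have h4 : 0 < ‖e v - 1‖ := lt_of_lt_of_le (by positivity) h3
  have h5 : (∑ j ∈ Finset.range L, e v ^ j) * (e v - 1) = e v ^ L - 1 := geom_sum_mul (e v) L
  have h6 : ‖∑ j ∈ Finset.range L, e v ^ j‖ * ‖e v - 1‖ ≤ 2 := by
    rw [← norm_mul, h5]
    calc ‖e v ^ L - 1‖ ≤ ‖e v ^ L‖ + ‖(1 : ℂ)‖ := norm_sub_le _ _
      _ = 2 := by rw [norm_pow, norm_e]; norm_num
  have h7 : ‖∑ j ∈ Finset.range L, e v ^ j‖ * (4 * ((Δ : ℝ) + 1) / p) ≤ 2 :=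
    le_trans (mul_le_mul_of_nonneg_left h3 (norm_nonneg _)) h6
  rw [le_div_iff₀ (by positivity)]
  have h8 : ‖∑ j ∈ Finset.range L, e v ^ j‖ * (4 * ((Δ : ℝ) + 1) / p) * p =
      ‖∑ j ∈ Finset.range L, e v ^ j‖ * (4 * ((Δ : ℝ) + 1)) := by
    field_simp
  have h9 := mul_le_mul_of_nonneg_right h7 hp.le
  rw [h8] at h9
  linarith

end Pool.Agent.Lib.MP_56a425_co
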