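import Mathlib
import Pool.Agent.Lib.MP_56a425_co.Chars

/-!
Counting the vectors `β ∈ (ℤ/p)^k` with many independent small relations.
-/

namespace Pool.Agent.Lib.MP_56a425_co

variable {p : ℕ} [NeZero p]

/-- The residue `w` has a representative of absolute value at most `Δ`. -/
def Small (Δ : ℕ) (w : ZMod p) : Prop := w.valMinAbs.natAbs ≤ Δ

open Classical in
theorem card_small (Δ : ℕ) :
    (Finset.univ.filter (fun w : ZMod p => Small Δ w)).card ≤ 2 * Δ + 1 := by
  have h1 : (Finset.Icc (-(Δ : ℤ)) Δ).card = 2 * Δ + 1 := by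
    rw [Int.card_Icc]
    omega
  rw [← h1]
  apply Finset.card_le_card_of_injOn (fun w => w.valMinAbs)
  · intro w hw
    simp only [Finset.coe_filter, Finset.mem_univ, true_and, Set.mem_ofPred_eq] at hw
    unfold Small at hw
    simp only [Finset.coe_Icc, Set.mem_Icc]
    omega
  · intro a _ b _ hab
    exact ZMod.injective_valMinAbs hab

open Classical in
theorem card_and_rel {k : ℕ} (hp : p.Prime) (Δ : ℕ) (a : Fin k → ℤ) (i : Fin k)
    (hai : (a i : ZMod p) ≠ 0) (P : (Fin k → ZMod p) → Prop)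
    (hP : ∀ (β : Fin k → ZMod p) (t : ZMod p), P (β + Pi.single i t) ↔ P β) :
    p * (Finset.univ.filter (fun β : Fin k → ZMod p =>
      P β ∧ Small Δ (∑ l, (a l : ZMod p) * β l))).card ≤
      (2 * Δ + 1) * (Finset.univ.filter P).card := by
  have : Fact p.Prime := ⟨hp⟩
  have h1 : ∀ t : ZMod p, (Finset.univ.filter (fun β : Fin k → ZMod p =>
      P β ∧ Small Δ (∑ l, (a l : ZMod p) * β l))).card =
      ∑ β : Fin k → ZMod p, (if P β ∧ Small Δ (∑ l, (a l : ZMod p) * β l + (a i : ZMod p) * t)
        then 1 else 0) := by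
    intro t
    rw [Finset.card_filter]
    rw [← Equiv.sum_comp (Equiv.addRight (Pi.single i t : Fin k → ZMod p))]
    refine Finset.sum_congr rfl (fun β _ => ?_)
    rw [Equiv.coe_addRight]
    have h2 : ∑ l, (a l : ZMod p) * (β + Pi.single i t : Fin k → ZMod p) l =
        ∑ l, (a l : ZMod p) * β l + (a i : ZMod p) * t := by
      simp only [Pi.add_apply, mul_add, Finset.sum_add_distrib]
      congr 1
      rw [Finset.sum_eq_single i]
      · simp
      · intro b _ hb
        rw [Pi.single_eq_of_ne hb, mul_zero]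
      · intro h
        exact absurd (Finset.mem_univ i) h
    rw [h2]
    simp only [hP]
  have h2 : p * (Finset.univ.filter (fun β : Fin k → ZMod p =>
      P β ∧ Small Δ (∑ l, (a l : ZMod p) * β l))).card =
      ∑ t : ZMod p, ∑ β : Fin k → ZMod p,
        (if P β ∧ Small Δ (∑ l, (a l : ZMod p) * β l + (a i : ZMod p) * t) then 1 else 0) := by
    rw [← Finset.sum_congr rfl (fun t _ => h1 t), Finset.sum_const, Finset.card_univ, ZMod.card,
      smul_eq_mul]
  rw [h2, Finset.sum_comm, Finset.card_filter, Finset.mul_sum]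
  apply Finset.sum_le_sum
  intro β _
  by_cases hPβ : P β
  · simp only [hPβ, true_and, if_true, mul_one]
    rw [← Finset.card_filter]
    have h3 : (Finset.univ.filter (fun t : ZMod p =>
        Small Δ (∑ l, (a l : ZMod p) * β l + (a i : ZMod p) * t))).card ≤
        (Finset.univ.filter (fun w : ZMod p => Small Δ w)).card := by
      apply Finset.card_le_card_of_injOn
        (fun t => ∑ l, (a l : ZMod p) * β l + (a i : ZMod p) * t)
      · intro t ht
        simpa using ht
      · intro s _ t _ hst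
        simp only [add_right_inj] at hst
        exact mul_left_cancel₀ hai hst
    exact le_trans h3 (card_small Δ)
  · simp [hPβ]

open Classical in
theorem card_rel {k : ℕ} (hp : p.Prime) (Δ : ℕ) (a : Fin k → ℤ) (i : Fin k)
    (hai : (a i : ZMod p) ≠ 0) :
    p * (Finset.univ.filter (fun β : Fin k → ZMod p =>
      Small Δ (∑ l, (a l : ZMod p) * β l))).card ≤ (2 * Δ + 1) * p ^ k := by
  have h1 := card_and_rel hp Δ a i hai (fun _ => True) (fun _ _ => Iff.rfl)
  simpa [ZMod.card] using h1

/-- No set `J` of at most `m` further coordinates meets all small relations of `β` vanishing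
on `J0`. -/
def NG {k : ℕ} (K Δ : ℕ) (J0 : Finset (Fin k)) (m : ℕ) (β : Fin k → ZMod p) : Prop :=
  ∀ J : Finset (Fin k), J.card ≤ m → ∃ a : Fin k → ℤ, (∀ i, |a i| ≤ K) ∧ a ≠ 0 ∧
    (∀ i ∈ J0 ∪ J, a i = 0) ∧ Small Δ (∑ i, (a i : ZMod p) * β i)

omit [NeZero p] in
theorem NG_invariant {k : ℕ} (K Δ : ℕ) (J0 : Finset (Fin k)) (m : ℕ) (i : Fin k) (hi : i ∈ J0)
    (β : Fin k → ZMod p) (t : ZMod p) : NG K Δ J0 m (β + Pi.single i t) ↔ NG K Δ J0 m β := by
  have h1 : ∀ a : Fin k → ℤ, a i = 0 → ∑ l, (a l : ZMod p) * (β + Pi.single i t : Fin k → ZMod p) l =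
      ∑ l, (a l : ZMod p) * β l := by
    intro a ha
    refine Finset.sum_congr rfl (fun l _ => ?_)
    by_cases hl : l = i
    · subst hl
      rw [ha]
      simp
    · rw [Pi.add_apply, Pi.single_eq_of_ne hl, add_zero]
  unfold NG
  constructor
  · intro h J hJ
    obtain ⟨a, h2, h3, h4, h5⟩ := h J hJ
    rw [h1 a (h4 i (Finset.mem_union_left _ hi))] at h5
    exact ⟨a, h2, h3, h4, h5⟩
  · intro h J hJ
    obtain ⟨a, h2, h3, h4, h5⟩ := h J hJ
    refine ⟨a, h2, h3, h4, ?_⟩
    rw [h1 a (h4 i (Finset.mem_union_left _ hi))]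
    exact h5

/-- The box of coefficient vectors. -/
noncomputable def Box (k K : ℕ) : Finset (Fin k → ℤ) := Fintype.piFinset (fun _ => Finset.Icc (-(K : ℤ)) K)

theorem mem_Box {k K : ℕ} (a : Fin k → ℤ) : a ∈ Box k K ↔ ∀ i, |a i| ≤ K := by
  unfold Box
  rw [Fintype.mem_piFinset]
  simp only [Finset.mem_Icc, abs_le]

theorem card_Box (k K : ℕ) : (Box k K).card = (2 * K + 1) ^ k := by
  unfold Box
  rw [Fintype.card_piFinset, Finset.prod_const, Int.card_Icc, Finset.card_univ, Fintype.card_fin]
  congr 1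
  omega

omit [NeZero p] in
theorem cast_ne_zero {K : ℕ} (hK : K < p) (x : ℤ) (hx : |x| ≤ K) (h0 : x ≠ 0) :
    (x : ZMod p) ≠ 0 := by
  intro h
  rw [ZMod.intCast_zmod_eq_zero_iff_dvd] at h
  have h1 : (p : ℤ) ≤ |x| := by
    have := Int.le_of_dvd (abs_pos.mpr h0) ((dvd_abs _ _).mpr h)
    exact this
  have h2 : (K : ℤ) < p := by exact_mod_cast hK
  omega

open Classical in
theorem count_NG {k : ℕ} (hp : p.Prime) (K Δ : ℕ) (hK : K < p) (m : ℕ) :
    ∀ J0 : Finset (Fin k),
    (Finset.univ.filter (fun β : Fin k → ZMod p => NG K Δ J0 m β)).card * p ^ (m + 1) ≤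
      p ^ k * ((2 * K + 1) ^ k * (2 * Δ + 1)) ^ (m + 1) := by
  induction m with
  | zero =>
    intro J0
    have hsub : Finset.univ.filter (fun β : Fin k → ZMod p => NG K Δ J0 0 β) ⊆
        ((Box k K).filter (fun a => a ≠ 0)).biUnion (fun a => Finset.univ.filter
          (fun β : Fin k → ZMod p => Small Δ (∑ l, (a l : ZMod p) * β l))) := by
      intro β hβ
      rw [Finset.mem_filter] at hβ
      obtain ⟨a, h2, h3, -, h5⟩ := hβ.2 ∅ (by simp)
      rw [Finset.mem_biUnion]
      refine ⟨a, ?_, ?_⟩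
      · rw [Finset.mem_filter, mem_Box]
        exact ⟨h2, h3⟩
      · rw [Finset.mem_filter]
        exact ⟨Finset.mem_univ _, h5⟩
    have h1 := le_trans (Finset.card_le_card hsub) Finset.card_biUnion_le
    have h2 : ∀ a ∈ (Box k K).filter (fun a => a ≠ 0), (Finset.univ.filter
          (fun β : Fin k → ZMod p => Small Δ (∑ l, (a l : ZMod p) * β l))).card * p ≤
          (2 * Δ + 1) * p ^ k := by
      intro a ha
      rw [Finset.mem_filter, mem_Box] at ha
      obtain ⟨i, hi⟩ := Function.ne_iff.mp ha.2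
      simp only [Pi.zero_apply] at hi
      have h3 := card_rel hp Δ a i (cast_ne_zero hK (a i) (ha.1 i) hi)
      rw [mul_comm]
      exact h3
    calc _ ≤ (∑ a ∈ (Box k K).filter (fun a => a ≠ 0), (Finset.univ.filter
          (fun β : Fin k → ZMod p => Small Δ (∑ l, (a l : ZMod p) * β l))).card) * p ^ (0 + 1) :=
          Nat.mul_le_mul_right _ h1
      _ = ∑ a ∈ (Box k K).filter (fun a => a ≠ 0), (Finset.univ.filter
          (fun β : Fin k → ZMod p => Small Δ (∑ l, (a l : ZMod p) * β l))).card * p := by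
          rw [zero_add, pow_one, Finset.sum_mul]
      _ ≤ ∑ a ∈ (Box k K).filter (fun a => a ≠ 0), (2 * Δ + 1) * p ^ k := Finset.sum_le_sum h2
      _ = ((Box k K).filter (fun a => a ≠ 0)).card * ((2 * Δ + 1) * p ^ k) := by
          rw [Finset.sum_const, smul_eq_mul]
      _ ≤ (Box k K).card * ((2 * Δ + 1) * p ^ k) :=
          Nat.mul_le_mul_right _ (Finset.card_le_card (Finset.filter_subset _ _))
      _ = _ := by rw [card_Box]; ring
  | succ m ih =>
    intro J0
    have hsel : ∀ a : Fin k → ℤ, ∃ i : Option (Fin k), a ≠ 0 → ∃ i', i = some i' ∧ a i' ≠ 0 := by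
      intro a
      by_cases h : a = 0
      · exact ⟨none, fun h' => absurd h h'⟩
      · obtain ⟨i, hi⟩ := Function.ne_iff.mp h
        exact ⟨some i, fun _ => ⟨i, rfl, hi⟩⟩
    choose sel hsel using hsel
    -- the set of further eliminated coordinates
    set T : (Fin k → ℤ) → Finset (Fin k) := fun a => (sel a).elim J0 (fun i => insert i J0) with hT
    have hsub : Finset.univ.filter (fun β : Fin k → ZMod p => NG K Δ J0 (m + 1) β) ⊆
        ((Box k K).filter (fun a => a ≠ 0)).biUnion (fun a => Finset.univ.filter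
          (fun β : Fin k → ZMod p => NG K Δ (T a) m β ∧
            Small Δ (∑ l, (a l : ZMod p) * β l))) := by
      intro β hβ
      rw [Finset.mem_filter] at hβ
      obtain ⟨a, h2, h3, -, h5⟩ := hβ.2 ∅ (by simp)
      rw [Finset.mem_biUnion]
      refine ⟨a, ?_, ?_⟩
      · rw [Finset.mem_filter, mem_Box]
        exact ⟨h2, h3⟩
      · rw [Finset.mem_filter]
        refine ⟨Finset.mem_univ _, ?_, h5⟩
        obtain ⟨i, hi, hai⟩ := hsel a h3
        intro J hJ
        obtain ⟨a', g2, g3, g4, g5⟩ := hβ.2 (insert i J) (by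
          have := Finset.card_insert_le i J
          omega)
        refine ⟨a', g2, g3, ?_, g5⟩
        intro l hl
        apply g4
        simp only [hT, hi, Option.elim_some] at hl
        simp only [Finset.mem_union, Finset.mem_insert] at hl ⊢
        tauto
    have h1 := le_trans (Finset.card_le_card hsub) Finset.card_biUnion_le
    have h2 : ∀ a ∈ (Box k K).filter (fun a => a ≠ 0), (Finset.univ.filter
          (fun β : Fin k → ZMod p => NG K Δ (T a) m β ∧
            Small Δ (∑ l, (a l : ZMod p) * β l))).card * p ^ (m + 2) ≤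
          (2 * Δ + 1) * (p ^ k * ((2 * K + 1) ^ k * (2 * Δ + 1)) ^ (m + 1)) := by
      intro a ha
      rw [Finset.mem_filter, mem_Box] at ha
      obtain ⟨i, hi, hai⟩ := hsel a ha.2
      have hTi : i ∈ T a := by
        simp only [hT, hi, Option.elim_some]
        exact Finset.mem_insert_self _ _
      have h3 := card_and_rel hp Δ a i (cast_ne_zero hK (a i) (ha.1 i) hai)
        (fun β => NG K Δ (T a) m β) (fun β t => NG_invariant K Δ (T a) m i hTi β t)
      have h4 := ih (T a)
      calc _ = (p * (Finset.univ.filter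
          (fun β : Fin k → ZMod p => NG K Δ (T a) m β ∧
            Small Δ (∑ l, (a l : ZMod p) * β l))).card) * p ^ (m + 1) := by ring
        _ ≤ ((2 * Δ + 1) * (Finset.univ.filter (fun β : Fin k → ZMod p => NG K Δ (T a) m β)).card)
            * p ^ (m + 1) := Nat.mul_le_mul_right _ h3
        _ = (2 * Δ + 1) * ((Finset.univ.filter (fun β : Fin k → ZMod p => NG K Δ (T a) m β)).card
            * p ^ (m + 1)) := by ring
        _ ≤ _ := Nat.mul_le_mul_left _ h4
    calc _ ≤ (∑ a ∈ (Box k K).filter (fun a => a ≠ 0), (Finset.univ.filter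
          (fun β : Fin k → ZMod p => NG K Δ (T a) m β ∧
            Small Δ (∑ l, (a l : ZMod p) * β l))).card) * p ^ (m + 1 + 1) :=
          Nat.mul_le_mul_right _ h1
      _ = ∑ a ∈ (Box k K).filter (fun a => a ≠ 0), (Finset.univ.filter
          (fun β : Fin k → ZMod p => NG K Δ (T a) m β ∧
            Small Δ (∑ l, (a l : ZMod p) * β l))).card * p ^ (m + 2) := by
          rw [Finset.sum_mul]
      _ ≤ ∑ a ∈ (Box k K).filter (fun a => a ≠ 0),
          (2 * Δ + 1) * (p ^ k * ((2 * K + 1) ^ k * (2 * Δ + 1)) ^ (m + 1)) :=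
          Finset.sum_le_sum h2
      _ = ((Box k K).filter (fun a => a ≠ 0)).card *
          ((2 * Δ + 1) * (p ^ k * ((2 * K + 1) ^ k * (2 * Δ + 1)) ^ (m + 1))) := by
          rw [Finset.sum_const, smul_eq_mul]
      _ ≤ (Box k K).card *
          ((2 * Δ + 1) * (p ^ k * ((2 * K + 1) ^ k * (2 * Δ + 1)) ^ (m + 1))) :=
          Nat.mul_le_mul_right _ (Finset.card_le_card (Finset.filter_subset _ _))
      _ = _ := by rw [card_Box]; ring

end Pool.Agent.Lib.MP_56a425_co
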