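import Mathlib

/-!
Definitions for MP_56a425_co (longest progressions in sumsets of sparse sets).
-/

namespace Pool.Agent.Lib.MP_56a425_co

open scoped Pointwise

/-- The finite set of integers `S` contains an arithmetic progression
`a, a + d, …, a + (k - 1) d` of length `k` with `d ≥ 1`. -/
def HasAP (S : Finset ℤ) (k : ℕ) : Prop :=
  ∃ a d : ℤ, 1 ≤ d ∧ ∀ j : ℕ, j < k → a + j * d ∈ S

/-- `lp S` is the largest `k` such that `S` contains an arithmetic progression of length `k`. -/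
noncomputable def lp (S : Finset ℤ) : ℕ := sSup {k : ℕ | HasAP S k}

/-- `ell θ` is the limit superior, as `N → ∞`, of the minimum of `lp (A + A)` over all
`A ⊆ {1, …, N}` with exactly `⌊N ^ (1 - θ)⌋` elements. -/
noncomputable def ell (θ : ℝ) : ℕ∞ :=
  Filter.limsup (fun N : ℕ =>
    ⨅ A ∈ {A : Finset ℤ | A ⊆ Finset.Icc 1 (N : ℤ) ∧ A.card = ⌊(N : ℝ) ^ (1 - θ)⌋₊},
      ((lp (A + A) : ℕ) : ℕ∞)) Filter.atTop

/-! ### Sanity lemmas about the definitions -/

theorem hasAP_mono {S T : Finset ℤ} (h : S ⊆ T) {k : ℕ} (hS : HasAP S k) : HasAP T k := by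
  obtain ⟨a, d, hd, ha⟩ := hS
  exact ⟨a, d, hd, fun j hj => h (ha j hj)⟩

theorem hasAP_le {S : Finset ℤ} {k l : ℕ} (hl : l ≤ k) (hS : HasAP S k) : HasAP S l := by
  obtain ⟨a, d, hd, ha⟩ := hS
  exact ⟨a, d, hd, fun j hj => ha j (lt_of_lt_of_le hj hl)⟩

theorem hasAP_zero (S : Finset ℤ) : HasAP S 0 := ⟨0, 1, le_refl _, fun j hj => by omega⟩

/-- An arithmetic progression of length `k` has `k` different members. -/
theorem HasAP.le_card {S : Finset ℤ} {k : ℕ} (hS : HasAP S k) : k ≤ S.card := by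
  obtain ⟨a, d, hd, ha⟩ := hS
  have h1 : ((Finset.range k).image (fun j : ℕ => a + j * d)) ⊆ S := by
    intro x hx
    rw [Finset.mem_image] at hx
    obtain ⟨j, hj, rfl⟩ := hx
    exact ha j (Finset.mem_range.mp hj)
  have h2 : ((Finset.range k).image (fun j : ℕ => a + j * d)).card = k := by
    rw [Finset.card_image_of_injective, Finset.card_range]
    intro i j hij
    have h3 : (i : ℤ) * d = j * d := by
      have := hij
      simp only at this
      linarith
    have h4 : (i : ℤ) = j := mul_right_cancel₀ (by omega : d ≠ 0) h3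
    exact_mod_cast h4
  calc k = _ := h2.symm
    _ ≤ _ := Finset.card_le_card h1

theorem bddAbove_hasAP (S : Finset ℤ) : BddAbove {k : ℕ | HasAP S k} :=
  ⟨S.card, fun _ hk => hk.le_card⟩

/-- `S` does contain a progression of length `lp S`. -/
theorem hasAP_lp (S : Finset ℤ) : HasAP S (lp S) :=
  Nat.sSup_mem (s := {k : ℕ | HasAP S k}) ⟨0, hasAP_zero S⟩ (bddAbove_hasAP S)

theorem le_lp_iff (S : Finset ℤ) (k : ℕ) : k ≤ lp S ↔ HasAP S k :=
  ⟨fun h => hasAP_le h (hasAP_lp S), fun h => le_csSup (bddAbove_hasAP S) h⟩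

theorem lp_lt_iff (S : Finset ℤ) (k : ℕ) : lp S < k ↔ ¬ HasAP S k := by
  rw [← le_lp_iff, not_le]

theorem lp_mono {S T : Finset ℤ} (h : S ⊆ T) : lp S ≤ lp T :=
  (le_lp_iff T (lp S)).2 (hasAP_mono h (hasAP_lp S))

/-- A progression with nonzero, possibly negative, difference gives one with `d ≥ 1`. -/
theorem hasAP_of_ne {S : Finset ℤ} {k : ℕ} (a d : ℤ) (hd : d ≠ 0)
    (h : ∀ j : ℕ, j < k → a + j * d ∈ S) : HasAP S k := by
  rcases lt_or_gt_of_ne hd with hneg | hpos
  · refine ⟨a + (k - 1 : ℤ) * d, -d, by omega, fun j hj => ?_⟩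
    have h1 := h (k - 1 - j) (by omega)
    have h2 : ((k - 1 - j : ℕ) : ℤ) = (k : ℤ) - 1 - j := by omega
    rw [h2] at h1
    have h3 : a + ((k : ℤ) - 1) * d + (j : ℤ) * -d = a + ((k : ℤ) - 1 - j) * d := by ring
    rw [h3]
    exact h1
  · exact ⟨a, d, by omega, h⟩

end Pool.Agent.Lib.MP_56a425_co
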