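import Mathlib
import Pool.Agent.Lib.MP_56a425_co.Defs

/-!
The tensor power step: if `D ⊆ [0, b)` and `D + D` has no progression of length `L`, then the
integers whose base `4 b` digits all lie in `D` have the same property.
-/

namespace Pool.Agent.Lib.MP_56a425_co

open scoped Pointwise

/-- A sequence with vanishing second differences is affine. -/
theorem affine_of_second_diff (u : ℕ → ℤ) (L : ℕ)
    (h : ∀ j, j + 2 < L → u j - 2 * u (j + 1) + u (j + 2) = 0) :
    ∀ j, j < L → u j = u 0 + j * (u 1 - u 0) := by
  intro j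
  induction j using Nat.strong_induction_on with
  | _ j ih =>
    intro hj
    match j, ih, hj with
    | 0, _, _ => simp
    | 1, _, _ => push_cast; ring
    | (n + 2), ih, hj =>
      have h1 := ih n (by omega) (by omega)
      have h2 := ih (n + 1) (by omega) (by omega)
      have h3 := h n hj
      push_cast at h1 h2 ⊢
      linarith

theorem mem_add_digits {D A : Finset ℤ} {M x : ℤ}
    (hx : x ∈ ((D ×ˢ A).image (fun p : ℤ × ℤ => p.1 + M * p.2)) +
      ((D ×ˢ A).image (fun p : ℤ × ℤ => p.1 + M * p.2))) :
    ∃ u ∈ D + D, ∃ v ∈ A + A, x = u + M * v := by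
  rw [Finset.mem_add] at hx
  obtain ⟨y, hy, z, hz, rfl⟩ := hx
  rw [Finset.mem_image] at hy hz
  obtain ⟨⟨a, b⟩, hab, rfl⟩ := hy
  obtain ⟨⟨c, d⟩, hcd, rfl⟩ := hz
  rw [Finset.mem_product] at hab hcd
  exact ⟨a + c, Finset.add_mem_add hab.1 hcd.1, b + d, Finset.add_mem_add hab.2 hcd.2, by
    simp only; ring⟩

theorem exists_digits (D : Finset ℤ) (b : ℤ) (L : ℕ) (hb : 1 ≤ b) (hL : 2 ≤ L)
    (hD : D ⊆ Finset.Ico 0 b) (hAP : ¬ HasAP (D + D) L) (n : ℕ) :
    ∃ A : Finset ℤ, A ⊆ Finset.Ico 0 ((4 * b) ^ n) ∧ A.card = D.card ^ n ∧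
      ¬ HasAP (A + A) L := by
  induction n with
  | zero =>
    refine ⟨{0}, ?_, by simp, ?_⟩
    · intro x hx
      rw [Finset.mem_singleton] at hx
      subst hx
      simp
    · intro h
      have h1 := h.le_card
      have h2 : (({0} : Finset ℤ) + {0}).card = 1 := by simp
      omega
  | succ n ih =>
    obtain ⟨A, hA, hcard, hAPA⟩ := ih
    refine ⟨(D ×ˢ A).image (fun p : ℤ × ℤ => p.1 + (4 * b) * p.2), ?_, ?_, ?_⟩
    · intro x hx
      rw [Finset.mem_image] at hx
      obtain ⟨⟨u, v⟩, huv, rfl⟩ := hx
      rw [Finset.mem_product] at huv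
      have h1 := Finset.mem_Ico.mp (hD huv.1)
      have h2 := Finset.mem_Ico.mp (hA huv.2)
      simp only at h1 h2
      rw [Finset.mem_Ico]
      constructor
      · simp only
        have : 0 ≤ 4 * b * v := mul_nonneg (by omega) h2.1
        omega
      · simp only
        have h3 : v + 1 ≤ (4 * b) ^ n := by omega
        have h4 : 4 * b * (v + 1) ≤ 4 * b * (4 * b) ^ n := mul_le_mul_of_nonneg_left h3 (by omega)
        rw [pow_succ]
        nlinarith
    · rw [Finset.card_image_of_injOn, Finset.card_product, hcard, pow_succ, mul_comm]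
      intro p hp q hq hpq
      simp only [Finset.coe_product, Set.mem_prod, Finset.mem_coe] at hp hq
      have h1 := Finset.mem_Ico.mp (hD hp.1)
      have h2 := Finset.mem_Ico.mp (hD hq.1)
      simp only at hpq
      have h3 : p.2 = q.2 := by
        by_contra hne
        rcases lt_or_gt_of_ne hne with h4 | h4
        · have : 4 * b * (p.2 + 1) ≤ 4 * b * q.2 := mul_le_mul_of_nonneg_left (by omega) (by omega)
          nlinarith
        · have : 4 * b * (q.2 + 1) ≤ 4 * b * p.2 := mul_le_mul_of_nonneg_left (by omega) (by omega)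
          nlinarith
      have h4 : p.1 = q.1 := by
        rw [h3] at hpq
        linarith
      exact Prod.ext h4 h3
    · intro h
      obtain ⟨a, d, hd, had⟩ := h
      have h1 : ∀ j : ℕ, ∃ u v : ℤ, j < L → u ∈ D + D ∧ v ∈ A + A ∧ a + j * d = u + (4 * b) * v := by
        intro j
        by_cases hj : j < L
        · obtain ⟨u, hu, v, hv, he⟩ := mem_add_digits (had j hj)
          exact ⟨u, v, fun _ => ⟨hu, hv, he⟩⟩
        · exact ⟨0, 0, fun h => absurd h hj⟩
      choose u v huv using h1
      have hbd : ∀ j, j < L → 0 ≤ u j ∧ u j ≤ 2 * b - 2 := by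
        intro j hj
        obtain ⟨hu, -, -⟩ := huv j hj
        rw [Finset.mem_add] at hu
        obtain ⟨y, hy, z, hz, he⟩ := hu
        have h1 := Finset.mem_Ico.mp (hD hy)
        have h2 := Finset.mem_Ico.mp (hD hz)
        omega
      have hsd : ∀ j, j + 2 < L → (u j - 2 * u (j + 1) + u (j + 2) = 0 ∧
          v j - 2 * v (j + 1) + v (j + 2) = 0) := by
        intro j hj
        have e0 := (huv j (by omega)).2.2
        have e1 := (huv (j + 1) (by omega)).2.2
        have e2 := (huv (j + 2) (by omega)).2.2
        have b0 := hbd j (by omega)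
        have b1 := hbd (j + 1) (by omega)
        have b2 := hbd (j + 2) (by omega)
        push_cast at e0 e1 e2
        have e3 : (u j - 2 * u (j + 1) + u (j + 2)) +
            4 * b * (v j - 2 * v (j + 1) + v (j + 2)) = 0 := by
          linear_combination -e0 + 2 * e1 - e2
        have e4 : v j - 2 * v (j + 1) + v (j + 2) = 0 := by
          by_contra hne
          set w := v j - 2 * v (j + 1) + v (j + 2) with hw
          rcases lt_or_gt_of_ne hne with h4 | h4
          · have : 4 * b * w ≤ 4 * b * (-1) := mul_le_mul_of_nonneg_left (by omega) (by omega)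
            linarith
          · have : 4 * b * 1 ≤ 4 * b * w := mul_le_mul_of_nonneg_left (by omega) (by omega)
            linarith
        rw [e4] at e3
        exact ⟨by linarith, e4⟩
      have hu := affine_of_second_diff u L (fun j hj => (hsd j hj).1)
      have hv := affine_of_second_diff v L (fun j hj => (hsd j hj).2)
      have hne : u 1 - u 0 ≠ 0 ∨ v 1 - v 0 ≠ 0 := by
        by_contra hcon
        push Not at hcon
        have e0 := (huv 0 (by omega)).2.2
        have e1 := (huv 1 (by omega)).2.2
        push_cast at e0 e1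
        have : d = (u 1 - u 0) + 4 * b * (v 1 - v 0) := by linear_combination e1 - e0
        rw [hcon.1, hcon.2] at this
        omega
      rcases hne with hne | hne
      · exact hAP (hasAP_of_ne (u 0) (u 1 - u 0) hne (fun j hj => by
          rw [← hu j hj]; exact (huv j hj).1))
      · exact hAPA (hasAP_of_ne (v 0) (v 1 - v 0) hne (fun j hj => by
          rw [← hv j hj]; exact (huv j hj).2.1))

end Pool.Agent.Lib.MP_56a425_co
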