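import Mathlib
import Pool.Agent.Lib.MP_56a425_co.Chars

/-!
A quantitative Kronecker lemma by averaging against a product of Fejer kernels: if the step
vector `β` has no small relation among the coordinates in `I`, then every orbit
`y + j β`, `j < L`, comes close to the point whose coordinates in `I` are all `1 / 2`.
-/

namespace Pool.Agent.Lib.MP_56a425_co

/-- Almost orthogonality. -/
theorem quad_sum {ι : Type*} [DecidableEq ι] (A : Finset ι) (c z : ι → ℂ)
    (hc : ∀ a ∈ A, ‖c a‖ = 1)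
    (hz : ∀ a ∈ A, ‖z a‖ = 1) (L : ℕ) (B : ℝ) (hB0 : 0 ≤ B)
    (hB : ∀ a ∈ A, ∀ b ∈ A, a ≠ b →
      ‖∑ j ∈ Finset.range L, (z a * (starRingEnd ℂ) (z b)) ^ j‖ ≤ B) :
    |∑ j ∈ Finset.range L, ‖∑ a ∈ A, c a * z a ^ j‖ ^ 2 - L * A.card| ≤ B * A.card ^ 2 := by
  have key : ((∑ j ∈ Finset.range L, ‖∑ a ∈ A, c a * z a ^ j‖ ^ 2 : ℝ) : ℂ) =
      ∑ a ∈ A, ∑ b ∈ A, c a * (starRingEnd ℂ) (c b) *
        ∑ j ∈ Finset.range L, (z a * (starRingEnd ℂ) (z b)) ^ j := by
    push_cast
    have h1 : ∀ j ∈ Finset.range L, ((‖∑ a ∈ A, c a * z a ^ j‖ : ℝ) : ℂ) ^ 2 =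
        ∑ a ∈ A, ∑ b ∈ A, c a * (starRingEnd ℂ) (c b) * (z a * (starRingEnd ℂ) (z b)) ^ j := by
      intro j _
      rw [← Complex.mul_conj', map_sum, Finset.sum_mul_sum]
      refine Finset.sum_congr rfl (fun a _ => Finset.sum_congr rfl (fun b _ => ?_))
      rw [map_mul, map_pow, mul_pow]
      ring
    rw [Finset.sum_congr rfl h1, Finset.sum_comm]
    refine Finset.sum_congr rfl (fun a _ => ?_)
    rw [Finset.sum_comm]
    refine Finset.sum_congr rfl (fun b _ => ?_)
    rw [Finset.mul_sum]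
  have hdiag : ((L * A.card : ℝ) : ℂ) = ∑ a ∈ A, ∑ b ∈ A, (if a = b then (L : ℂ) else 0) := by
    have h1 : ∀ a ∈ A, ∑ b ∈ A, (if a = b then (L : ℂ) else 0) = L := by
      intro a ha
      rw [Finset.sum_ite_eq, if_pos ha]
    rw [Finset.sum_congr rfl h1, Finset.sum_const, nsmul_eq_mul]
    push_cast
    ring
  have hdiff : ((∑ j ∈ Finset.range L, ‖∑ a ∈ A, c a * z a ^ j‖ ^ 2 - L * A.card : ℝ) : ℂ) =
      ∑ a ∈ A, ∑ b ∈ A, (c a * (starRingEnd ℂ) (c b) *
        ∑ j ∈ Finset.range L, (z a * (starRingEnd ℂ) (z b)) ^ j - (if a = b then (L : ℂ) else 0)) := by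
    rw [Complex.ofReal_sub, key, hdiag, ← Finset.sum_sub_distrib]
    refine Finset.sum_congr rfl (fun a _ => ?_)
    rw [← Finset.sum_sub_distrib]
  have hterm : ∀ a ∈ A, ∀ b ∈ A, ‖c a * (starRingEnd ℂ) (c b) *
        ∑ j ∈ Finset.range L, (z a * (starRingEnd ℂ) (z b)) ^ j - (if a = b then (L : ℂ) else 0)‖
        ≤ B := by
    intro a ha b hb
    by_cases hab : a = b
    · subst hab
      have h1 : c a * (starRingEnd ℂ) (c a) = 1 := by
        rw [Complex.mul_conj', hc a ha]; norm_num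
      have h2 : z a * (starRingEnd ℂ) (z a) = 1 := by
        rw [Complex.mul_conj', hz a ha]; norm_num
      rw [h1, h2]
      simp [hB0]
    · rw [if_neg hab, sub_zero, norm_mul, norm_mul, hc a ha, RCLike.norm_conj, hc b hb]
      simpa using hB a ha b hb hab
  rw [← Real.norm_eq_abs, ← Complex.norm_real, hdiff]
  calc _ ≤ ∑ a ∈ A, ‖∑ b ∈ A, (c a * (starRingEnd ℂ) (c b) *
        ∑ j ∈ Finset.range L, (z a * (starRingEnd ℂ) (z b)) ^ j -
          (if a = b then (L : ℂ) else 0))‖ := norm_sum_le _ _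
    _ ≤ ∑ a ∈ A, ∑ b ∈ A, B :=
        Finset.sum_le_sum (fun a ha => le_trans (norm_sum_le _ _)
          (Finset.sum_le_sum (fun b hb => hterm a ha b hb)))
    _ = B * A.card ^ 2 := by
        rw [Finset.sum_const, Finset.sum_const, nsmul_eq_mul, nsmul_eq_mul]
        ring

variable {p : ℕ} [NeZero p]

/-- The geometric polynomial `∑_{a ≤ K} (- e v) ^ a`. -/
noncomputable def g (K : ℕ) (v : ZMod p) : ℂ := ∑ a ∈ Finset.range (K + 1), (- e v) ^ a

theorem h_mul_g_sq_le (K : ℕ) (v : ZMod p) : h v * ‖g K v‖ ^ 2 ≤ 1 := by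
  have h1 : g K v * (1 + e v) = 1 - (- e v) ^ (K + 1) := by
    have := geom_sum_mul_neg (- e v) (K + 1)
    rw [sub_neg_eq_add] at this
    exact this
  have h2 : ‖g K v‖ ^ 2 * ‖1 + e v‖ ^ 2 ≤ 4 := by
    rw [← mul_pow, ← norm_mul, h1]
    have h3 : ‖1 - (- e v) ^ (K + 1)‖ ≤ 2 := by
      calc _ ≤ ‖(1 : ℂ)‖ + ‖(- e v) ^ (K + 1)‖ := norm_sub_le _ _
        _ = 2 := by rw [norm_pow, norm_neg, norm_e]; norm_num
    nlinarith [norm_nonneg (1 - (- e v) ^ (K + 1))]
  rw [norm_one_add_e_sq] at h2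
  nlinarith

/-- The index set of exponent vectors. -/
def expo (k K : ℕ) (I : Finset (Fin k)) : Finset (Fin k → ℕ) :=
  Fintype.piFinset (fun i => if i ∈ I then Finset.range (K + 1) else {0})

theorem card_expo (k K : ℕ) (I : Finset (Fin k)) : (expo k K I).card = (K + 1) ^ I.card := by
  unfold expo
  rw [Fintype.card_piFinset]
  have : ∀ i : Fin k, (if i ∈ I then Finset.range (K + 1) else ({0} : Finset ℕ)).card =
      if i ∈ I then K + 1 else 1 := by
    intro i
    split_ifs <;> simp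
  simp_rw [this]
  rw [Finset.prod_ite_mem, Finset.univ_inter, Finset.prod_const]

theorem prod_g_eq {k K : ℕ} (I : Finset (Fin k)) (y β : Fin k → ZMod p) (j : ℕ) :
    ∏ i ∈ I, g K (y i + (j : ZMod p) * β i) =
      ∑ a ∈ expo k K I, (∏ i, (- e (y i)) ^ (a i)) * e (∑ i, (a i : ZMod p) * β i) ^ j := by
  have h1 : ∏ i ∈ I, g K (y i + (j : ZMod p) * β i) =
      ∏ i, ∑ a ∈ (if i ∈ I then Finset.range (K + 1) else {0}),
        (- e (y i + (j : ZMod p) * β i)) ^ a := by
    have h2 : ∀ i : Fin k, (∑ a ∈ (if i ∈ I then Finset.range (K + 1) else {0}),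
        (- e (y i + (j : ZMod p) * β i)) ^ a) =
        if i ∈ I then g K (y i + (j : ZMod p) * β i) else 1 := by
      intro i
      split_ifs
      · rfl
      · simp
    simp_rw [h2]
    rw [Finset.prod_ite_mem, Finset.univ_inter]
  rw [h1, Finset.prod_univ_sum]
  refine Finset.sum_congr rfl (fun a _ => ?_)
  have h3 : e (∑ i, (a i : ZMod p) * β i) ^ j = ∏ i, e ((j : ZMod p) * β i) ^ (a i) := by
    rw [← e_nsmul, Finset.mul_sum]
    have h4 : ∀ (s : Finset (Fin k)) (f : Fin k → ZMod p), e (∑ i ∈ s, f i) = ∏ i ∈ s, e (f i) := by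
      intro s f
      induction s using Finset.induction_on with
      | empty => simp [e_zero]
      | insert a s ha ih => rw [Finset.sum_insert ha, Finset.prod_insert ha, e_add, ih]
    rw [h4]
    refine Finset.prod_congr rfl (fun i _ => ?_)
    rw [← e_nsmul]
    congr 1
    ring
  rw [h3, ← Finset.prod_mul_distrib]
  refine Finset.prod_congr rfl (fun i _ => ?_)
  rw [e_add, ← mul_pow]
  congr 1
  ring

theorem sum_G {k K L Δ : ℕ} (y β : Fin k → ZMod p) (I : Finset (Fin k))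
    (hrel : ∀ a : Fin k → ℤ, (∀ i, |a i| ≤ K) → a ≠ 0 → (∀ i, i ∉ I → a i = 0) →
      Δ < (∑ i, (a i : ZMod p) * β i).valMinAbs.natAbs)
    (hL : 3 * ((K : ℝ) + 1) ^ k * p ≤ 2 * (Δ + 1) * L) :
    |∑ j ∈ Finset.range L, ‖∏ i ∈ I, g K (y i + (j : ZMod p) * β i)‖ ^ 2 -
      L * ((K : ℝ) + 1) ^ I.card| ≤ L * ((K : ℝ) + 1) ^ I.card / 3 := by
  have hB0 : (0 : ℝ) ≤ p / (2 * (Δ + 1)) := by positivity
  have hq := quad_sum (expo k K I) (fun a => ∏ i, (- e (y i)) ^ (a i))
    (fun a => e (∑ i, (a i : ZMod p) * β i)) (by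
      intro a _
      rw [norm_prod]
      apply Finset.prod_eq_one
      intro i _
      rw [norm_pow, norm_neg, norm_e, one_pow]) (by
      intro a _
      exact norm_e _) L (p / (2 * (Δ + 1))) hB0 (by
      intro a ha b hb hab
      have h1 : e (∑ i, (a i : ZMod p) * β i) * (starRingEnd ℂ) (e (∑ i, (b i : ZMod p) * β i)) =
          e (∑ i, (((a i : ℤ) - (b i : ℤ) : ℤ) : ZMod p) * β i) := by
        rw [← e_neg, ← e_add]
        congr 1
        rw [← sub_eq_add_neg, ← Finset.sum_sub_distrib]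
        refine Finset.sum_congr rfl (fun i _ => ?_)
        push_cast
        ring
      simp only [h1]
      apply geom_bound
      apply hrel (fun i => (a i : ℤ) - (b i : ℤ))
      · intro i
        unfold expo at ha hb
        rw [Fintype.mem_piFinset] at ha hb
        have h2 := ha i
        have h3 := hb i
        split_ifs at h2 h3
        · rw [Finset.mem_range] at h2 h3
          rw [abs_le]
          constructor <;> omega
        · rw [Finset.mem_singleton] at h2 h3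
          rw [h2, h3]
          simp
      · intro h0
        apply hab
        funext i
        have := congrFun h0 i
        simp only [Pi.zero_apply] at this
        omega
      · intro i hi
        unfold expo at ha hb
        rw [Fintype.mem_piFinset] at ha hb
        have h2 := ha i
        have h3 := hb i
        rw [if_neg hi, Finset.mem_singleton] at h2 h3
        rw [h2, h3]
        simp)
  have hcard : ((expo k K I).card : ℝ) = ((K : ℝ) + 1) ^ I.card := by
    rw [card_expo]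
    push_cast
    rfl
  rw [hcard] at hq
  have heq : ∀ j ∈ Finset.range L, ‖∏ i ∈ I, g K (y i + (j : ZMod p) * β i)‖ ^ 2 =
      ‖∑ a ∈ expo k K I, (∏ i, (- e (y i)) ^ (a i)) * e (∑ i, (a i : ZMod p) * β i) ^ j‖ ^ 2 := by
    intro j _
    rw [prod_g_eq]
  rw [Finset.sum_congr rfl heq]
  refine le_trans hq ?_
  have hK : (1 : ℝ) ≤ (K : ℝ) + 1 := by
    have : (0 : ℝ) ≤ K := Nat.cast_nonneg K
    linarith
  have hIk : ((K : ℝ) + 1) ^ I.card ≤ ((K : ℝ) + 1) ^ k := by
    apply pow_le_pow_right₀ hK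
    calc I.card ≤ (Finset.univ : Finset (Fin k)).card := Finset.card_le_univ I
      _ = k := by simp
  have hBk : p / (2 * ((Δ : ℝ) + 1)) * ((K : ℝ) + 1) ^ k ≤ L / 3 := by
    rw [div_mul_eq_mul_div, div_le_div_iff₀ (by positivity) (by norm_num)]
    linarith
  have hpos : (0 : ℝ) < ((K : ℝ) + 1) ^ I.card := by positivity
  calc p / (2 * ((Δ : ℝ) + 1)) * (((K : ℝ) + 1) ^ I.card) ^ 2
      = (p / (2 * ((Δ : ℝ) + 1)) * ((K : ℝ) + 1) ^ I.card) * ((K : ℝ) + 1) ^ I.card := by ring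
    _ ≤ (p / (2 * ((Δ : ℝ) + 1)) * ((K : ℝ) + 1) ^ k) * ((K : ℝ) + 1) ^ I.card :=
        mul_le_mul_of_nonneg_right (mul_le_mul_of_nonneg_left hIk hB0) hpos.le
    _ ≤ (L / 3) * ((K : ℝ) + 1) ^ I.card := mul_le_mul_of_nonneg_right hBk hpos.le
    _ = _ := by ring

theorem hit {k K L Δ : ℕ} (y β : Fin k → ZMod p) (I : Finset (Fin k))
    (hrel : ∀ a : Fin k → ℤ, (∀ i, |a i| ≤ K) → a ≠ 0 → (∀ i, i ∉ I → a i = 0) →
      Δ < (∑ i, (a i : ZMod p) * β i).valMinAbs.natAbs)
    (hL : 3 * ((K : ℝ) + 1) ^ k * p ≤ 2 * (Δ + 1) * L) (hL0 : 0 < L) :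
    ∃ j < L, ∑ i ∈ I, h (y i + (j : ZMod p) * β i) ≤ 2 * k / (K + 1) := by
  by_contra hcon
  push Not at hcon
  set G : Finset (Fin k) → ℕ → ℝ := fun I' j =>
    ‖∏ i ∈ I', g K (y i + (j : ZMod p) * β i)‖ ^ 2 with hG
  have hLr : (0 : ℝ) < L := by exact_mod_cast hL0
  have hK1 : (0 : ℝ) < (K : ℝ) + 1 := by positivity
  have hpos : (0 : ℝ) < ((K : ℝ) + 1) ^ I.card := by positivity
  have hlow : 2 / 3 * (L * ((K : ℝ) + 1) ^ I.card) ≤ ∑ j ∈ Finset.range L, G I j := by
    have h1 := sum_G y β I hrel hL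
    rw [abs_le] at h1
    have := h1.1
    simp only [hG]
    linarith
  have hup : ∀ i ∈ I, ∑ j ∈ Finset.range L, G (I.erase i) j ≤
      4 / 3 * (L * ((K : ℝ) + 1) ^ I.card) / (K + 1) := by
    intro i hi
    have h1 := sum_G (K := K) (L := L) (Δ := Δ) y β (I.erase i) (by
      intro a ha h0 hz
      exact hrel a ha h0 (fun l hl => hz l (fun hm => hl (Finset.mem_of_mem_erase hm)))) hL
    rw [abs_le] at h1
    have h2 := h1.2
    rw [Finset.card_erase_of_mem hi] at h2
    have h3 : ((K : ℝ) + 1) ^ I.card = ((K : ℝ) + 1) ^ (I.card - 1) * (K + 1) := by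
      have : 0 < I.card := Finset.card_pos.mpr ⟨i, hi⟩
      conv_lhs => rw [show I.card = (I.card - 1) + 1 by omega]
      rw [pow_succ]
    rw [h3]
    have h4 : 4 / 3 * (L * (((K : ℝ) + 1) ^ (I.card - 1) * (K + 1))) / (K + 1) =
        4 / 3 * (L * (((K : ℝ) + 1) ^ (I.card - 1))) := by
      field_simp
    rw [h4]
    simp only [hG]
    linarith
  have hpt : ∀ i ∈ I, ∀ j : ℕ, h (y i + (j : ZMod p) * β i) * G I j ≤ G (I.erase i) j := by
    intro i hi j
    simp only [hG]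
    rw [← Finset.mul_prod_erase I (fun i => g K (y i + (j : ZMod p) * β i)) hi, norm_mul, mul_pow,
      ← mul_assoc]
    have h1 := h_mul_g_sq_le K (y i + (j : ZMod p) * β i)
    calc _ ≤ 1 * ‖∏ x ∈ I.erase i, g K (y x + (j : ZMod p) * β x)‖ ^ 2 :=
          mul_le_mul_of_nonneg_right h1 (by positivity)
      _ = _ := one_mul _
  have hsum_up : ∑ j ∈ Finset.range L, (∑ i ∈ I, h (y i + (j : ZMod p) * β i)) * G I j ≤
      k * (4 / 3 * (L * ((K : ℝ) + 1) ^ I.card) / (K + 1)) := by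
    calc _ = ∑ i ∈ I, ∑ j ∈ Finset.range L, h (y i + (j : ZMod p) * β i) * G I j := by
          rw [Finset.sum_comm]
          refine Finset.sum_congr rfl (fun j _ => ?_)
          rw [Finset.sum_mul]
      _ ≤ ∑ i ∈ I, (4 / 3 * (L * ((K : ℝ) + 1) ^ I.card) / (K + 1)) :=
          Finset.sum_le_sum (fun i hi => le_trans (Finset.sum_le_sum (fun j _ => hpt i hi j))
            (hup i hi))
      _ = I.card * (4 / 3 * (L * ((K : ℝ) + 1) ^ I.card) / (K + 1)) := by
          rw [Finset.sum_const, nsmul_eq_mul]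
      _ ≤ _ := by
          apply mul_le_mul_of_nonneg_right _ (by positivity)
          have : I.card ≤ k := by
            calc I.card ≤ (Finset.univ : Finset (Fin k)).card := Finset.card_le_univ I
              _ = k := by simp
          exact_mod_cast this
  have hex : ∃ j ∈ Finset.range L, 0 < G I j := by
    by_contra hne
    push Not at hne
    have : ∑ j ∈ Finset.range L, G I j ≤ 0 := Finset.sum_nonpos hne
    have h5 : 0 < 2 / 3 * (L * ((K : ℝ) + 1) ^ I.card) := by positivity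
    linarith
  have hsum_low : ∑ j ∈ Finset.range L, (2 * k / (K + 1) : ℝ) * G I j <
      ∑ j ∈ Finset.range L, (∑ i ∈ I, h (y i + (j : ZMod p) * β i)) * G I j := by
    apply Finset.sum_lt_sum
    · intro j hj
      exact mul_le_mul_of_nonneg_right (hcon j (Finset.mem_range.mp hj)).le (by
        simp only [hG]; positivity)
    · obtain ⟨j, hj, hGj⟩ := hex
      exact ⟨j, hj, mul_lt_mul_of_pos_right (hcon j (Finset.mem_range.mp hj)) hGj⟩
  rw [← Finset.mul_sum] at hsum_low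
  have h6 : (2 * k / (K + 1) : ℝ) * (2 / 3 * (L * ((K : ℝ) + 1) ^ I.card)) ≤
      (2 * k / (K + 1) : ℝ) * ∑ j ∈ Finset.range L, G I j :=
    mul_le_mul_of_nonneg_left hlow (by positivity)
  have h7 : (2 * k / (K + 1) : ℝ) * (2 / 3 * (L * ((K : ℝ) + 1) ^ I.card)) =
      k * (4 / 3 * (L * ((K : ℝ) + 1) ^ I.card) / (K + 1)) := by
    field_simp
    ring
  linarith

end Pool.Agent.Lib.MP_56a425_co
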