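import Mathlib
import Pool.Agent.Lib.MP_56a425_co.Defs
import Pool.Agent.Lib.MP_56a425_co.Hit
import Pool.Agent.Lib.MP_56a425_co.Count

/-!
The niveau set: a dense subset `D` of an interval whose sumset has no long progression.
-/

namespace Pool.Agent.Lib.MP_56a425_co

open scoped Pointwise

variable {p : ℕ} [NeZero p]

/-- Elements of the sumset of a niveau set. -/
theorem not_mem_sumset {k m : ℕ} (ξ : Fin k → ZMod p) (x y : ZMod p)
    (hx : (2 * m : ℝ) < ∑ i, C (ξ i * x)) (hy : (2 * m : ℝ) < ∑ i, C (ξ i * y)) :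
    (2 * m : ℝ) < ∑ i, Real.sqrt (h (ξ i * (x + y))) := by
  have h1 : ∑ i, C (ξ i * x) + ∑ i, C (ξ i * y) ≤ 2 * ∑ i, Real.sqrt (h (ξ i * (x + y))) := by
    rw [← Finset.sum_add_distrib, Finset.mul_sum]
    refine Finset.sum_le_sum (fun i _ => ?_)
    have := C_add_C_le (ξ i * x) (ξ i * y)
    rwa [← mul_add] at this
  linarith

/-- Every long progression leaves the sumset. -/
theorem leave {k m K L Δ : ℕ} (hk : k = 1152 * m ^ 2) (hK : K + 1 = 2304 * k) (ξ : Fin k → ZMod p)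
    (d : ZMod p) (hd : ¬ NG K Δ ∅ m (fun i => d * ξ i))
    (hL : 3 * ((K : ℝ) + 1) ^ k * p ≤ 2 * (Δ + 1) * L) (hL0 : 0 < L) (s : ZMod p) :
    ∃ j < L, ∑ i, Real.sqrt (h (ξ i * (s + (j : ZMod p) * d))) ≤ 2 * m := by
  unfold NG at hd
  push Not at hd
  obtain ⟨J, hJ, hrel⟩ := hd
  obtain ⟨j, hj, hH⟩ := hit (K := K) (L := L) (Δ := Δ) (fun i => ξ i * s) (fun i => d * ξ i)
    (Finset.univ \ J) (by
      intro a ha h0 hz
      have h1 := hrel a ha h0 (by
        intro i hi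
        rw [Finset.empty_union] at hi
        apply hz
        simp [hi])
      unfold Small at h1
      exact not_le.mp h1) hL hL0
  refine ⟨j, hj, ?_⟩
  have e1 : ∀ i, ξ i * s + (j : ZMod p) * (d * ξ i) = ξ i * (s + (j : ZMod p) * d) := fun i => by
    ring
  simp only [e1] at hH
  have hKr : (K : ℝ) + 1 = 2304 * k := by exact_mod_cast hK
  have hkr : (k : ℝ) = 1152 * (m : ℝ) ^ 2 := by rw [hk]; push_cast; ring
  have hcs := sq_sum_le_card_mul_sum_sq (s := (Finset.univ \ J : Finset (Fin k)))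
    (f := fun i => Real.sqrt (h (ξ i * (s + (j : ZMod p) * d))))
  have hsq : ∀ i ∈ (Finset.univ \ J : Finset (Fin k)),
      Real.sqrt (h (ξ i * (s + (j : ZMod p) * d))) ^ 2 = h (ξ i * (s + (j : ZMod p) * d)) :=
    fun i _ => Real.sq_sqrt (h_nonneg _)
  rw [Finset.sum_congr rfl hsq] at hcs
  have hcardI : ((Finset.univ \ J : Finset (Fin k)).card : ℝ) ≤ k := by
    have : (Finset.univ \ J : Finset (Fin k)).card ≤ k := by
      calc _ ≤ (Finset.univ : Finset (Fin k)).card := Finset.card_le_univ _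
        _ = k := by simp
    exact_mod_cast this
  have hHpos : 0 ≤ ∑ i ∈ (Finset.univ \ J : Finset (Fin k)), h (ξ i * (s + (j : ZMod p) * d)) :=
    Finset.sum_nonneg (fun i _ => h_nonneg _)
  have hm2 : (k : ℝ) * (2 * k / (K + 1)) ≤ (m : ℝ) ^ 2 := by
    rw [hKr]
    by_cases hk0 : (k : ℝ) = 0
    · rw [hk0]; simp
    · rw [mul_div_assoc', div_le_iff₀ (by positivity)]
      nlinarith
  have h2 : (∑ i ∈ (Finset.univ \ J : Finset (Fin k)),
      Real.sqrt (h (ξ i * (s + (j : ZMod p) * d)))) ^ 2 ≤ (m : ℝ) ^ 2 := by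
    calc _ ≤ _ := hcs
      _ ≤ (k : ℝ) * (2 * k / (K + 1)) := by
          apply mul_le_mul hcardI hH hHpos (Nat.cast_nonneg k)
      _ ≤ _ := hm2
  have h3 : ∑ i ∈ (Finset.univ \ J : Finset (Fin k)),
      Real.sqrt (h (ξ i * (s + (j : ZMod p) * d))) ≤ m :=
    le_of_sq_le_sq h2 (Nat.cast_nonneg m)
  have h4 : ∑ i ∈ J, Real.sqrt (h (ξ i * (s + (j : ZMod p) * d))) ≤ m := by
    calc _ ≤ ∑ i ∈ J, (1 : ℝ) := Finset.sum_le_sum (fun i _ => by
          rw [Real.sqrt_le_left (by norm_num)]; simpa using h_le_one _)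
      _ = J.card := by simp
      _ ≤ m := by exact_mod_cast hJ
  have h5 : ∑ i, Real.sqrt (h (ξ i * (s + (j : ZMod p) * d))) =
      ∑ i ∈ (Finset.univ \ J : Finset (Fin k)), Real.sqrt (h (ξ i * (s + (j : ZMod p) * d))) +
      ∑ i ∈ J, Real.sqrt (h (ξ i * (s + (j : ZMod p) * d))) :=
    (Finset.sum_sdiff (Finset.subset_univ J)).symm
  rw [h5]
  linarith

open Classical in
/-- The proportion of frequencies for which a nonzero `x` lies in the niveau set. -/
theorem density {k m : ℕ} (hp : p.Prime) (hp5 : 5 ≤ p) (hm : 1 ≤ m) (hk : k = 1152 * m ^ 2)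
    (x : ZMod p) (hx : x ≠ 0) :
    (p : ℝ) ^ k / 20 ≤ ((Finset.univ.filter (fun ξ : Fin k → ZMod p =>
      (2 * m : ℝ) < ∑ i, C (ξ i * x))).card : ℝ) := by
  have : Fact p.Prime := ⟨hp⟩
  have hne : ∀ r : ℕ, 0 < r → r < 5 → ((r : ℕ) : ZMod p) ≠ 0 := by
    intro r h1 h2 h3
    rw [ZMod.natCast_eq_zero_iff] at h3
    have := Nat.le_of_dvd h1 h3
    omega
  obtain ⟨c1, c2, c3, c4⟩ := moments_C (p := p) (by exact_mod_cast hne 2 (by norm_num) (by norm_num))
    (by exact_mod_cast hne 3 (by norm_num) (by norm_num))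
    (by exact_mod_cast hne 4 (by norm_num) (by norm_num))
    (by exact_mod_cast hne 1 (by norm_num) (by norm_num))
  obtain ⟨s1, s2, s3, s4⟩ := moments (C (p := p)) c1 c2 c3 c4 k
  have hkr : (k : ℝ) = 1152 * (m : ℝ) ^ 2 := by rw [hk]; push_cast; ring
  have hcardΩ : (Fintype.card (Fin k → ZMod p) : ℝ) = (Fintype.card (ZMod p) : ℝ) ^ k := by
    rw [Fintype.card_fun, Fintype.card_fin]
    push_cast
    rfl
  have hmr : (0 : ℝ) < m := by exact_mod_cast hm
  have ht := tail_lower (fun ξ : Fin k → ZMod p => ∑ i, C (ξ i)) (24 * m) (by positivity) s1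
    (by rw [s2, hcardΩ, hkr]; ring) s3 (by
      rw [s4, hcardΩ]
      have h1 : (3 * (k : ℝ) ^ 2 / 4 - 3 * k / 8) ≤ 3 * (24 * (m : ℝ)) ^ 4 := by
        rw [hkr]
        nlinarith [sq_nonneg (m : ℝ)]
      have h2 : (0 : ℝ) ≤ (Fintype.card (ZMod p) : ℝ) ^ k := by positivity
      nlinarith [mul_le_mul_of_nonneg_left h1 h2])
  rw [hcardΩ, ZMod.card] at ht
  refine le_trans ht ?_
  have hle : (Finset.univ.filter (fun ξ : Fin k → ZMod p => 24 * (m : ℝ) / 12 < ∑ i, C (ξ i))).card ≤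
      (Finset.univ.filter (fun ξ : Fin k → ZMod p => (2 * m : ℝ) < ∑ i, C (ξ i * x))).card := by
    apply Finset.card_le_card_of_injOn (fun ξ i => ξ i * x⁻¹)
    · intro ξ hξ
      simp only [Finset.coe_filter, Finset.mem_univ, true_and, Set.mem_ofPred_eq] at hξ ⊢
      have h1 : ∀ i, ξ i * x⁻¹ * x = ξ i := fun i => by
        rw [mul_assoc, inv_mul_cancel₀ hx, mul_one]
      simp only [h1]
      linarith
    · intro ξ _ η _ hξη
      funext i
      have := congrFun hξη i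
      simp only at this
      exact mul_right_cancel₀ (inv_ne_zero hx) this
  exact_mod_cast hle

open Classical in
theorem bad_count {k : ℕ} (hp : p.Prime) (K Δ m : ℕ) (hK : K < p) (d : ZMod p) (hd : d ≠ 0) :
    (Finset.univ.filter (fun ξ : Fin k → ZMod p => NG K Δ ∅ m (fun i => d * ξ i))).card *
      p ^ (m + 1) ≤ p ^ k * ((2 * K + 1) ^ k * (2 * Δ + 1)) ^ (m + 1) := by
  have : Fact p.Prime := ⟨hp⟩
  refine le_trans (Nat.mul_le_mul_right _ ?_) (count_NG hp K Δ hK m ∅)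
  apply Finset.card_le_card_of_injOn (fun ξ i => d * ξ i)
  · intro ξ hξ
    simpa using hξ
  · intro ξ _ η _ hξη
    funext i
    have := congrFun hξη i
    simp only at this
    exact mul_left_cancel₀ hd this

/-- The niveau set for the frequencies `ξ`. -/
noncomputable def niveau {k : ℕ} (m : ℕ) (ξ : Fin k → ZMod p) (b : ℕ) : Finset ℤ :=
  (Finset.Ico (0 : ℤ) b).filter (fun x => (2 * m : ℝ) < ∑ i, C (ξ i * (x : ZMod p)))

theorem niveau_noAP {k m K L Δ b : ℕ} (hb : 2 * b ≤ p + 1) (hk : k = 1152 * m ^ 2)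
    (hK : K + 1 = 2304 * k) (ξ : Fin k → ZMod p)
    (hd : ∀ d : ZMod p, d ≠ 0 → ¬ NG K Δ ∅ m (fun i => d * ξ i))
    (hL : 3 * ((K : ℝ) + 1) ^ k * p ≤ 2 * (Δ + 1) * L) (hL0 : 2 ≤ L) :
    ¬ HasAP (niveau m ξ b + niveau m ξ b) L := by
  rintro ⟨a, d, hd1, had⟩
  have hrange : ∀ z ∈ niveau m ξ b + niveau m ξ b, 0 ≤ z ∧ z ≤ (p : ℤ) - 1 := by
    intro z hz
    rw [Finset.mem_add] at hz
    obtain ⟨x, hx, y, hy, rfl⟩ := hz
    unfold niveau at hx hy
    rw [Finset.mem_filter, Finset.mem_Ico] at hx hy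
    omega
  have h0 := hrange _ (had 0 (by omega))
  have h1 := hrange _ (had 1 (by omega))
  push_cast at h0 h1
  have hdne : (d : ZMod p) ≠ 0 := by
    intro h
    rw [ZMod.intCast_zmod_eq_zero_iff_dvd] at h
    have := Int.le_of_dvd (by omega) h
    omega
  obtain ⟨j, hj, hle⟩ := leave (L := L) hk hK ξ (d : ZMod p) (hd _ hdne) hL (by omega) (a : ZMod p)
  have hmem := had j hj
  rw [Finset.mem_add] at hmem
  obtain ⟨x, hx, y, hy, hxy⟩ := hmem
  unfold niveau at hx hy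
  rw [Finset.mem_filter] at hx hy
  have h2 := not_mem_sumset ξ (x : ZMod p) (y : ZMod p) hx.2 hy.2
  have h3 : ((x : ZMod p) + (y : ZMod p)) = (a : ZMod p) + (j : ZMod p) * (d : ZMod p) := by
    rw [← Int.cast_add, hxy]
    push_cast
    ring
  rw [h3] at h2
  linarith

end Pool.Agent.Lib.MP_56a425_co
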