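import Mathlib
import Pool.Agent.Lib.MP_56a425_co.Ruzsa

/-!
Choice of the parameters: for every `m ≥ 2` there is a dense subset of an interval whose sumset
has no long progression.
-/

namespace Pool.Agent.Lib.MP_56a425_co

open scoped Pointwise

open Classical in
theorem exists_freq {p : ℕ} [NeZero p] {k m K Δ b Q : ℕ} (hp : p.Prime) (hm : 1 ≤ m)
    (hk : k = 1152 * m ^ 2) (hK : K + 1 = 2304 * k) (hQ : Q = (4608 * k) ^ k) (hKp : K < p)
    (h160 : 160 * p ≤ Q ^ (m + 1)) (hΔ : (2 * Δ + 1) * Q ^ 2 ≤ p) (hb : 2 * b ≤ p + 1)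
    (hb2 : 3 ≤ b) (hp5 : 5 ≤ p) :
    ∃ ξ : Fin k → ZMod p, (∀ d : ZMod p, d ≠ 0 → ¬ NG K Δ ∅ m (fun i => d * ξ i)) ∧
      (b : ℝ) / 50 ≤ ((niveau m ξ b).card : ℝ) := by
  have hp0 : 0 < p := hp.pos
  have hQ0 : 0 < Q := by
    rw [hQ]
    apply Nat.pow_pos
    rw [hk]
    positivity
  set cd : ZMod p → ℕ := fun d => (Finset.univ.filter
    (fun ξ : Fin k → ZMod p => NG K Δ ∅ m (fun i => d * ξ i))).card with hcd
  have hcount : ∀ d : ZMod p, d ≠ 0 → cd d * Q ^ (m + 1) ≤ p ^ k := by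
    intro d hd
    have h1 := bad_count (k := k) hp K Δ m hKp d hd
    have h2 : (2 * K + 1) ^ k ≤ Q := by
      rw [hQ]
      apply Nat.pow_le_pow_left
      omega
    have h3 : Q * ((2 * K + 1) ^ k * (2 * Δ + 1)) ≤ p := by
      calc Q * ((2 * K + 1) ^ k * (2 * Δ + 1)) ≤ Q * (Q * (2 * Δ + 1)) :=
            Nat.mul_le_mul_left _ (Nat.mul_le_mul_right _ h2)
        _ = (2 * Δ + 1) * Q ^ 2 := by ring
        _ ≤ p := hΔ
    have h4 : (cd d * Q ^ (m + 1)) * p ^ (m + 1) ≤ p ^ k * p ^ (m + 1) := by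
      calc (cd d * Q ^ (m + 1)) * p ^ (m + 1) = Q ^ (m + 1) * (cd d * p ^ (m + 1)) := by ring
        _ ≤ Q ^ (m + 1) * (p ^ k * ((2 * K + 1) ^ k * (2 * Δ + 1)) ^ (m + 1)) :=
            Nat.mul_le_mul_left _ h1
        _ = p ^ k * (Q * ((2 * K + 1) ^ k * (2 * Δ + 1))) ^ (m + 1) := by rw [mul_pow Q]; ring
        _ ≤ p ^ k * p ^ (m + 1) := Nat.mul_le_mul_left _ (Nat.pow_le_pow_left h3 _)
    exact Nat.le_of_mul_le_mul_right h4 (by positivity)
  set Z : Finset (Fin k → ZMod p) := Finset.univ.filter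
    (fun ξ => ∃ d : ZMod p, d ≠ 0 ∧ NG K Δ ∅ m (fun i => d * ξ i)) with hZ
  have hZcard : 160 * Z.card ≤ p ^ k := by
    have hsub : Z ⊆ (Finset.univ.filter (fun d : ZMod p => d ≠ 0)).biUnion (fun d =>
        Finset.univ.filter (fun ξ : Fin k → ZMod p => NG K Δ ∅ m (fun i => d * ξ i))) := by
      intro ξ hξ
      rw [hZ, Finset.mem_filter] at hξ
      obtain ⟨d, hd, hn⟩ := hξ.2
      rw [Finset.mem_biUnion]
      exact ⟨d, by simp [hd], by simp [hn]⟩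
    have h1 : Z.card ≤ ∑ d ∈ Finset.univ.filter (fun d : ZMod p => d ≠ 0), cd d :=
      le_trans (Finset.card_le_card hsub) Finset.card_biUnion_le
    have h2 : Z.card * Q ^ (m + 1) ≤ p * p ^ k := by
      calc Z.card * Q ^ (m + 1) ≤
            (∑ d ∈ Finset.univ.filter (fun d : ZMod p => d ≠ 0), cd d) * Q ^ (m + 1) :=
            Nat.mul_le_mul_right _ h1
        _ = ∑ d ∈ Finset.univ.filter (fun d : ZMod p => d ≠ 0), cd d * Q ^ (m + 1) :=
            Finset.sum_mul _ _ _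
        _ ≤ ∑ d ∈ Finset.univ.filter (fun d : ZMod p => d ≠ 0), p ^ k :=
            Finset.sum_le_sum (fun d hd => hcount d (Finset.mem_filter.mp hd).2)
        _ = (Finset.univ.filter (fun d : ZMod p => d ≠ 0)).card * p ^ k := by
            rw [Finset.sum_const, smul_eq_mul]
        _ ≤ p * p ^ k := by
            apply Nat.mul_le_mul_right
            calc _ ≤ (Finset.univ : Finset (ZMod p)).card := Finset.card_le_univ _
              _ = p := by rw [Finset.card_univ, ZMod.card]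
    have h3 : p * (160 * Z.card) ≤ p * p ^ k := by
      calc p * (160 * Z.card) = Z.card * (160 * p) := by ring
        _ ≤ Z.card * Q ^ (m + 1) := Nat.mul_le_mul_left _ h160
        _ ≤ _ := h2
    exact Nat.le_of_mul_le_mul_left h3 hp0
  by_contra hcon
  push Not at hcon
  have hcon' : ∀ ξ : Fin k → ZMod p, ξ ∉ Z → ((niveau m ξ b).card : ℝ) < b / 50 := by
    intro ξ hξ
    apply hcon
    intro d hd hn
    apply hξ
    rw [hZ, Finset.mem_filter]
    exact ⟨Finset.mem_univ _, d, hd, hn⟩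
  have hpk : (0 : ℝ) < (p : ℝ) ^ k := by positivity
  -- upper bound
  have hup : ∑ ξ : Fin k → ZMod p, ((niveau m ξ b).card : ℝ) ≤
      (Z.card : ℝ) * b + (p : ℝ) ^ k * (b / 50) := by
    have h1 : ∀ ξ ∈ (Finset.univ : Finset (Fin k → ZMod p)), ((niveau m ξ b).card : ℝ) ≤
        (if ξ ∈ Z then (b : ℝ) else 0) + b / 50 := by
      intro ξ _
      split_ifs with h
      · have : (niveau m ξ b).card ≤ b := by
          unfold niveau
          calc _ ≤ (Finset.Ico (0 : ℤ) b).card := Finset.card_le_card (Finset.filter_subset _ _)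
            _ = b := by simp
        have h2 : ((niveau m ξ b).card : ℝ) ≤ b := by exact_mod_cast this
        have h3 : (0 : ℝ) ≤ b / 50 := by positivity
        linarith
      · rw [zero_add]
        exact (hcon' ξ h).le
    refine le_trans (Finset.sum_le_sum h1) (le_of_eq ?_)
    rw [Finset.sum_add_distrib, Finset.sum_const, Finset.card_univ, Fintype.card_fun, ZMod.card,
      Fintype.card_fin, nsmul_eq_mul]
    congr 1
    · rw [Finset.sum_ite_mem, Finset.univ_inter, Finset.sum_const, nsmul_eq_mul]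
    · push_cast
      ring
  -- lower bound
  have hlow : ((b : ℝ) - 1) * ((p : ℝ) ^ k / 20) ≤
      ∑ ξ : Fin k → ZMod p, ((niveau m ξ b).card : ℝ) := by
    have h1 : ∑ ξ : Fin k → ZMod p, ((niveau m ξ b).card : ℝ) =
        ∑ x ∈ Finset.Ico (0 : ℤ) b, ((Finset.univ.filter (fun ξ : Fin k → ZMod p =>
          (2 * m : ℝ) < ∑ i, C (ξ i * (x : ZMod p)))).card : ℝ) := by
      have h2 : ∀ ξ : Fin k → ZMod p, ((niveau m ξ b).card : ℝ) = ∑ x ∈ Finset.Ico (0 : ℤ) b,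
          (if (2 * m : ℝ) < ∑ i, C (ξ i * (x : ZMod p)) then (1 : ℝ) else 0) := by
        intro ξ
        unfold niveau
        rw [Finset.sum_boole]
      simp_rw [h2]
      rw [Finset.sum_comm]
      refine Finset.sum_congr rfl (fun x _ => ?_)
      rw [Finset.sum_boole]
    rw [h1]
    have h3 : Finset.Ico (1 : ℤ) b ⊆ Finset.Ico (0 : ℤ) b := by
      intro x hx
      rw [Finset.mem_Ico] at hx ⊢
      omega
    have h4 : ∑ x ∈ Finset.Ico (1 : ℤ) b, ((p : ℝ) ^ k / 20) ≤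
        ∑ x ∈ Finset.Ico (1 : ℤ) b, ((Finset.univ.filter (fun ξ : Fin k → ZMod p =>
          (2 * m : ℝ) < ∑ i, C (ξ i * (x : ZMod p)))).card : ℝ) := by
      apply Finset.sum_le_sum
      intro x hx
      rw [Finset.mem_Ico] at hx
      apply density hp hp5 hm hk
      intro h
      rw [ZMod.intCast_zmod_eq_zero_iff_dvd] at h
      have := Int.le_of_dvd (by omega) h
      omega
    have h5 : ∑ x ∈ Finset.Ico (1 : ℤ) b, ((p : ℝ) ^ k / 20) = ((b : ℝ) - 1) * ((p : ℝ) ^ k / 20) := by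
      rw [Finset.sum_const, Int.card_Ico, nsmul_eq_mul]
      congr 1
      have h6 : ((b : ℤ) - 1).toNat = b - 1 := by omega
      rw [h6, Nat.cast_sub (by omega)]
      norm_num
    rw [← h5]
    refine le_trans h4 (Finset.sum_le_sum_of_subset_of_nonneg h3 (fun x _ _ => Nat.cast_nonneg _))
  have h7 : 160 * (Z.card : ℝ) ≤ (p : ℝ) ^ k := by exact_mod_cast hZcard
  have hbr : (3 : ℝ) ≤ b := by exact_mod_cast hb2
  have h8 := le_trans hlow hup
  have h9 : (Z.card : ℝ) * b ≤ (p : ℝ) ^ k / 160 * b :=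
    mul_le_mul_of_nonneg_right (by linarith) (by linarith)
  nlinarith [mul_pos hpk (by linarith : (0 : ℝ) < b - 2.2)]

theorem exists_D (m : ℕ) (hm : 2 ≤ m) : ∃ (b L : ℕ) (D : Finset ℤ), 1 ≤ b ∧ 2 ≤ L ∧
    D ⊆ Finset.Ico 0 (b : ℤ) ∧ (b : ℝ) / 50 ≤ D.card ∧
    (m * (1152 * (m : ℝ) ^ 2) * Real.log (4608 * (1152 * (m : ℝ) ^ 2)) ≤ Real.log (4 * b)) ∧
    Real.log L = 4 * ((1152 * (m : ℝ) ^ 2) * Real.log (4608 * (1152 * (m : ℝ) ^ 2))) ∧
    ¬ HasAP (D + D) L := by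
  obtain ⟨k, hk⟩ : ∃ k : ℕ, k = 1152 * m ^ 2 := ⟨_, rfl⟩
  obtain ⟨K, hK⟩ : ∃ K : ℕ, K = 2304 * k - 1 := ⟨_, rfl⟩
  obtain ⟨Q, hQ⟩ : ∃ Q : ℕ, Q = (4608 * k) ^ k := ⟨_, rfl⟩
  have hm2 : 4 ≤ m ^ 2 := by nlinarith
  have hk1 : 1 ≤ k := by omega
  have hK1 : K + 1 = 2304 * k := by omega
  have hQk : 4608 * k ≤ Q := by
    rw [hQ]
    calc 4608 * k = (4608 * k) ^ 1 := (pow_one _).symm
      _ ≤ (4608 * k) ^ k := Nat.pow_le_pow_right (by omega) hk1
  have hQ1 : 4608 ≤ Q := by omega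
  obtain ⟨P, hP⟩ : ∃ P : ℕ, P = Q ^ (m + 1) / 320 := ⟨_, rfl⟩
  have hQm : Q ≤ Q ^ (m + 1) := by
    calc Q = Q ^ 1 := (pow_one _).symm
      _ ≤ Q ^ (m + 1) := Nat.pow_le_pow_right (by omega) (by omega)
  have hP0 : P ≠ 0 := by omega
  obtain ⟨p, hp, hPp, hp2⟩ := Nat.exists_prime_lt_and_le_two_mul P hP0
  have h320 : Q ^ (m + 1) < 320 * p := by omega
  have h160 : 160 * p ≤ Q ^ (m + 1) := by omega
  have hQm1 : Q ^ 2 * 4608 ≤ Q ^ (m + 1) := by
    calc Q ^ 2 * 4608 ≤ Q ^ 2 * Q := Nat.mul_le_mul_left _ hQ1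
      _ = Q ^ 3 := by ring
      _ ≤ Q ^ (m + 1) := Nat.pow_le_pow_right (by omega) (by omega)
  have hQm2 : Q ^ m * 4608 ≤ Q ^ (m + 1) := by
    rw [pow_succ]
    exact Nat.mul_le_mul_left _ hQ1
  have h2Q : 2 * Q ^ 2 ≤ p := by omega
  have hQQ : Q ≤ Q ^ 2 := by nlinarith
  have hNe : NeZero p := ⟨hp.ne_zero⟩
  obtain ⟨Δ, hΔ⟩ : ∃ Δ : ℕ, Δ = p / (4 * Q ^ 2) := ⟨_, rfl⟩
  have hΔ1 : Δ * (4 * Q ^ 2) ≤ p := by rw [hΔ]; exact Nat.div_mul_le_self _ _
  have hΔ2 : p < (Δ + 1) * (4 * Q ^ 2) := by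
    rw [hΔ]
    have := Nat.lt_mul_div_succ p (by positivity : 0 < 4 * Q ^ 2)
    linarith [mul_comm (4 * Q ^ 2) (p / (4 * Q ^ 2) + 1)]
  have hΔ3 : (2 * Δ + 1) * Q ^ 2 ≤ p := by nlinarith
  obtain ⟨b, hb⟩ : ∃ b : ℕ, b = (p + 1) / 2 := ⟨_, rfl⟩
  have hb1 : 2 * b ≤ p + 1 := by omega
  have hpbig : 4608 ≤ p := by omega
  have hb2 : 3 ≤ b := by omega
  obtain ⟨ξ, hξ1, hξ2⟩ := exists_freq (Δ := Δ) (b := b) hp (by omega : 1 ≤ m) hk hK1 hQ
    (by omega : K < p) h160 hΔ3 hb1 hb2 (by omega)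
  have hQr : (4608 : ℝ) ≤ Q := by exact_mod_cast hQ1
  have hkr : (k : ℝ) = 1152 * (m : ℝ) ^ 2 := by rw [hk]; push_cast; ring
  have hlogQ : Real.log Q = k * Real.log (4608 * k) := by
    rw [hQ]
    push_cast
    rw [Real.log_pow]
  refine ⟨b, Q ^ 4, niveau m ξ b, by omega, ?_, Finset.filter_subset _ _, hξ2, ?_, ?_, ?_⟩
  · calc 2 ≤ Q := by omega
      _ = Q ^ 1 := (pow_one _).symm
      _ ≤ Q ^ 4 := Nat.pow_le_pow_right (by omega) (by norm_num)
  · rw [← hkr, mul_assoc, ← hlogQ, ← Real.log_pow]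
    apply Real.log_le_log
    · have : (0 : ℝ) < Q := by linarith
      positivity
    · have h1 : Q ^ m ≤ 4 * b := by omega
      exact_mod_cast h1
  · rw [← hkr, ← hlogQ]
    push_cast
    rw [Real.log_pow]
    norm_num
  · apply niveau_noAP hb1 hk hK1 ξ hξ1
    · have h1 : ((K : ℝ) + 1) ^ k ≤ Q := by
        have h2 : (K + 1) ^ k ≤ Q := by
          rw [hQ]
          apply Nat.pow_le_pow_left
          omega
        exact_mod_cast h2
      have h3 : (p : ℝ) ≤ ((Δ : ℝ) + 1) * (4 * (Q : ℝ) ^ 2) := by exact_mod_cast hΔ2.le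
      have h4 : (0 : ℝ) ≤ ((K : ℝ) + 1) ^ k := by positivity
      have hQ0 : (0 : ℝ) < Q := by linarith
      have hΔ0 : (0 : ℝ) < (Δ : ℝ) + 1 := by positivity
      push_cast
      calc 3 * ((K : ℝ) + 1) ^ k * p ≤ 3 * Q * (((Δ : ℝ) + 1) * (4 * (Q : ℝ) ^ 2)) := by
            apply mul_le_mul _ h3 (Nat.cast_nonneg p) (by positivity)
            linarith
        _ = ((Δ : ℝ) + 1) * (Q : ℝ) ^ 3 * 12 := by ring
        _ ≤ ((Δ : ℝ) + 1) * (Q : ℝ) ^ 3 * (2 * Q) :=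
            mul_le_mul_of_nonneg_left (by linarith) (by positivity)
        _ = 2 * ((Δ : ℝ) + 1) * (Q : ℝ) ^ 4 := by ring
    · calc 2 ≤ Q := by omega
        _ = Q ^ 1 := (pow_one _).symm
        _ ≤ Q ^ 4 := Nat.pow_le_pow_right (by omega) (by norm_num)

end Pool.Agent.Lib.MP_56a425_co
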