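import Mathlib
import Pool.Agent.Lib.MP_56a425_co.Digits

/-!
From one finite set `D` to an upper bound for `ell θ`.
-/

namespace Pool.Agent.Lib.MP_56a425_co

open scoped Pointwise

theorem hasAP_shift {A : Finset ℤ} {L : ℕ}
    (h : HasAP (A.image (fun x => x + 1) + A.image (fun x => x + 1)) L) : HasAP (A + A) L := by
  obtain ⟨a, d, hd, ha⟩ := h
  refine ⟨a - 2, d, hd, fun j hj => ?_⟩
  have h1 := ha j hj
  rw [Finset.mem_add] at h1
  obtain ⟨y, hy, z, hz, he⟩ := h1
  rw [Finset.mem_image] at hy hz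
  obtain ⟨y', hy', rfl⟩ := hy
  obtain ⟨z', hz', rfl⟩ := hz
  have : a - 2 + j * d = y' + z' := by linarith
  rw [this]
  exact Finset.add_mem_add hy' hz'

theorem ell_le_of_base (θ : ℝ) (h0 : 0 < θ) (h1 : θ < 1) (D : Finset ℤ) (b : ℕ) (L : ℕ)
    (hb : 1 ≤ b) (hL : 2 ≤ L) (hD : D ⊆ Finset.Ico 0 (b : ℤ)) (hcard : (b : ℝ) / 50 ≤ D.card)
    (hθ : 2 * Real.log 200 ≤ θ * Real.log (4 * b)) (hAP : ¬ HasAP (D + D) L) :
    ell θ ≤ (L : ℕ∞) := by
  set M : ℕ := 4 * b with hM
  have hM4 : 4 ≤ M := by omega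
  have hMr : ((M : ℕ) : ℝ) = 4 * b := by rw [hM]; push_cast; ring
  have hMpos : (0 : ℝ) < M := by positivity
  have hlogM : 0 < Real.log M := Real.log_pos (by exact_mod_cast (by omega : 1 < M))
  obtain ⟨n0, hn0⟩ := exists_nat_ge (2 / θ)
  unfold ell
  refine Filter.limsup_le_of_le (by isBoundedDefault) ?_
  rw [Filter.eventually_atTop]
  refine ⟨M ^ n0, fun N hN => ?_⟩
  have hN0 : N ≠ 0 := by
    intro h
    rw [h] at hN
    have : 0 < M ^ n0 := by positivity
    omega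
  set n := Nat.log M N with hn
  have hn1 : M ^ n ≤ N := Nat.pow_log_le_self M hN0
  have hn2 : N < M ^ (n + 1) := Nat.lt_pow_succ_log_self (by omega) N
  have hn3 : n0 ≤ n := by
    rw [hn]
    exact Nat.le_log_of_pow_le (by omega) hN
  obtain ⟨A, hA, hAc, hAAP⟩ := exists_digits D b L (by omega) hL hD hAP n
  have hDpos : (0 : ℝ) < D.card := lt_of_lt_of_le (by positivity) hcard
  have hlogD : Real.log M - Real.log 200 ≤ Real.log D.card := by
    rw [← Real.log_div hMpos.ne' (by norm_num)]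
    refine Real.log_le_log (by positivity) ?_
    rw [hMr]
    linarith
  have hnθ : 2 ≤ n * θ := by
    have h2 : 2 / θ ≤ n := le_trans hn0 (by exact_mod_cast hn3)
    rwa [div_le_iff₀ h0] at h2
  have hNr : (0 : ℝ) < N := by exact_mod_cast Nat.pos_of_ne_zero hN0
  have hlogN : Real.log N ≤ (n + 1) * Real.log M := by
    have h2 : Real.log N ≤ Real.log ((M : ℝ) ^ (n + 1)) :=
      Real.log_le_log hNr (by exact_mod_cast hn2.le)
    rw [Real.log_pow] at h2
    push_cast at h2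
    exact h2
  have hmain : (N : ℝ) ^ (1 - θ) ≤ (D.card : ℝ) ^ n := by
    rw [← Real.log_le_log_iff (Real.rpow_pos_of_pos hNr _) (by positivity),
      Real.log_rpow hNr, Real.log_pow]
    rw [← hMr] at hθ
    have h2 : (1 - θ) * Real.log N ≤ (1 - θ) * ((n + 1) * Real.log M) :=
      mul_le_mul_of_nonneg_left hlogN (by linarith)
    have h3 : (n : ℝ) * (Real.log M - Real.log 200) ≤ n * Real.log D.card :=
      mul_le_mul_of_nonneg_left hlogD (by positivity)
    have h4 : 2 * Real.log M ≤ n * θ * Real.log M := mul_le_mul_of_nonneg_right hnθ hlogM.le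
    have h5 : (n : ℝ) * (2 * Real.log 200) ≤ n * (θ * Real.log M) :=
      mul_le_mul_of_nonneg_left hθ (by positivity)
    nlinarith [mul_pos h0 hlogM]
  have hfl : ⌊(N : ℝ) ^ (1 - θ)⌋₊ ≤ A.card := by
    rw [hAc]
    have : ⌊(N : ℝ) ^ (1 - θ)⌋₊ ≤ ⌊((D.card ^ n : ℕ) : ℝ)⌋₊ := by
      apply Nat.floor_le_floor
      push_cast
      exact hmain
    rwa [Nat.floor_natCast] at this
  obtain ⟨A', hA', hA'c⟩ := Finset.exists_subset_card_eq hfl
  have hmem : A'.image (fun x => x + 1) ∈ {A : Finset ℤ | A ⊆ Finset.Icc 1 (N : ℤ) ∧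
      A.card = ⌊(N : ℝ) ^ (1 - θ)⌋₊} := by
    refine ⟨?_, ?_⟩
    · intro x hx
      rw [Finset.mem_image] at hx
      obtain ⟨y, hy, rfl⟩ := hx
      have h2 := Finset.mem_Ico.mp (hA (hA' hy))
      have h3 : ((M : ℕ) : ℤ) ^ n ≤ N := by exact_mod_cast hn1
      have h4 : ((M : ℕ) : ℤ) = 4 * (b : ℤ) := by rw [hM]; push_cast; ring
      rw [h4] at h3
      rw [Finset.mem_Icc]
      omega
    · rw [Finset.card_image_of_injective _ (fun x y h => by simpa using h), hA'c]
  refine le_trans (iInf₂_le _ hmem) ?_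
  have h5 : ¬ HasAP (A'.image (fun x => x + 1) + A'.image (fun x => x + 1)) L := fun h =>
    hAAP (hasAP_mono (Finset.add_subset_add hA' hA') (hasAP_shift h))
  have h6 := (lp_lt_iff _ _).2 h5
  exact_mod_cast h6.le

end Pool.Agent.Lib.MP_56a425_co
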