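import Mathlib
import Pool.Agent.Lib.MP_56a425_co.Sizes
import Pool.Agent.Lib.MP_56a425_co.Exists

/-!
The final choice of the parameter `m` in terms of `θ`.
-/

namespace Pool.Agent.Lib.MP_56a425_co

theorem log_le_half {s : ℝ} (hs : 0 < s) : Real.log s ≤ s / 2 := by
  have h1 : Real.log (s / 2) ≤ s / 2 - 1 := Real.log_le_sub_one_of_pos (by positivity)
  rw [Real.log_div hs.ne' (by norm_num)] at h1
  have h2 := Real.log_two_lt_d9
  linarith

theorem choose_m (θ : ℝ) (h0 : 0 < θ) (h1 : θ < 1) : ∃ m : ℕ, 2 ≤ m ∧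
    2 * Real.log 200 ≤ θ * (m * (1152 * (m : ℝ) ^ 2) * Real.log (4608 * (1152 * (m : ℝ) ^ 2))) ∧
    4 * ((1152 * (m : ℝ) ^ 2) * Real.log (4608 * (1152 * (m : ℝ) ^ 2))) ≤
      1161216 * θ ^ (-(2 / 3) : ℝ) * Real.log (2 / θ) ^ ((1 / 3) : ℝ) := by
  set l := Real.log (2 / θ) with hl
  have h2θ : 2 < 2 / θ := by
    rw [lt_div_iff₀ h0]
    linarith
  have hl2 : Real.log 2 ≤ l := Real.log_le_log (by norm_num) h2θ.le
  have hlog2 : (0.69 : ℝ) < Real.log 2 := by
    have := Real.log_two_gt_d9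
    linarith
  have hlog2' : Real.log 2 < (0.7 : ℝ) := by
    have := Real.log_two_lt_d9
    linarith
  have hlpos : 0 < l := by linarith
  set y := θ * l with hy
  have hypos : 0 < y := mul_pos h0 hlpos
  have hy1 : y ≤ 1 := by
    have h2 := log_le_half (s := 2 / θ) (by positivity)
    rw [← hl] at h2
    have h3 : 2 / θ / 2 = 1 / θ := by ring
    rw [h3] at h2
    calc y = θ * l := rfl
      _ ≤ θ * (1 / θ) := mul_le_mul_of_nonneg_left h2 h0.le
      _ = 1 := by field_simp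
  set z := y ^ (-(1 / 3) : ℝ) with hz
  have hz1 : 1 ≤ z := Real.one_le_rpow_of_pos_of_le_one_of_nonpos hypos hy1 (by norm_num)
  have hz3 : z ^ 3 = 1 / y := by
    rw [hz, ← Real.rpow_natCast, ← Real.rpow_mul hypos.le]
    norm_num
    rw [Real.rpow_neg_one]
  have hz2 : z ^ 2 = θ ^ (-(2 / 3) : ℝ) * l ^ (-(2 / 3) : ℝ) := by
    rw [hz, ← Real.rpow_natCast, ← Real.rpow_mul hypos.le, hy, Real.mul_rpow h0.le hlpos.le]
    norm_num
  set m : ℕ := ⌈z⌉₊ + 1 with hm
  have hmz : z ≤ m := by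
    rw [hm]
    push_cast
    have := Nat.le_ceil z
    linarith
  have hmz' : (m : ℝ) ≤ 3 * z := by
    rw [hm]
    push_cast
    have := Nat.ceil_lt_add_one (by linarith : 0 ≤ z)
    linarith
  have hmpos : (0 : ℝ) < m := by linarith
  have hm2 : 2 ≤ m := by
    have : 1 ≤ ⌈z⌉₊ := by
      rw [Nat.one_le_ceil_iff]
      linarith
    omega
  have hlogz : Real.log z = -(1 / 3) * Real.log y := by
    rw [hz, Real.log_rpow hypos]
  have hlogy : Real.log y = Real.log θ + Real.log l := by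
    rw [hy, Real.log_mul h0.ne' hlpos.ne']
  have hlθ : l = Real.log 2 - Real.log θ := by
    rw [hl, Real.log_div (by norm_num) h0.ne']
  have hll := log_le_half hlpos
  have hlm : Real.log z ≤ Real.log m := Real.log_le_log (by linarith) hmz
  have harg : Real.log (4608 * (1152 * (m : ℝ) ^ 2)) = Real.log 5308416 + 2 * Real.log m := by
    have : 4608 * (1152 * (m : ℝ) ^ 2) = 5308416 * (m : ℝ) ^ 2 := by ring
    rw [this, Real.log_mul (by norm_num) (by positivity), Real.log_pow]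
    push_cast
    ring
  have hbig1 : 22 * Real.log 2 ≤ Real.log 5308416 := by
    rw [show (22 : ℝ) * Real.log 2 = ((22 : ℕ) : ℝ) * Real.log 2 by norm_num, ← Real.log_pow]
    exact Real.log_le_log (by norm_num) (by norm_num)
  have hbig2 : Real.log 5308416 ≤ 23 * Real.log 2 := by
    rw [show (23 : ℝ) * Real.log 2 = ((23 : ℕ) : ℝ) * Real.log 2 by norm_num, ← Real.log_pow]
    exact Real.log_le_log (by norm_num) (by norm_num)
  have h200 : Real.log 200 ≤ 8 * Real.log 2 := by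
    rw [show (8 : ℝ) * Real.log 2 = ((8 : ℕ) : ℝ) * Real.log 2 by norm_num, ← Real.log_pow]
    exact Real.log_le_log (by norm_num) (by norm_num)
  refine ⟨m, hm2, ?_, ?_⟩
  · -- lower bound
    have e1 : l / 3 ≤ Real.log (4608 * (1152 * (m : ℝ) ^ 2)) := by
      rw [harg]
      linarith
    have e2 : 1 / y ≤ (m : ℝ) ^ 3 := by
      rw [← hz3]
      exact pow_le_pow_left₀ (by linarith) hmz 3
    have e3 : θ * ((1 / y) * 1152 * (l / 3)) ≤
        θ * (m * (1152 * (m : ℝ) ^ 2) * Real.log (4608 * (1152 * (m : ℝ) ^ 2))) := by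
      apply mul_le_mul_of_nonneg_left _ h0.le
      have e4 : (m : ℝ) * (1152 * (m : ℝ) ^ 2) = (m : ℝ) ^ 3 * 1152 := by ring
      rw [e4]
      exact mul_le_mul (mul_le_mul_of_nonneg_right e2 (by norm_num)) e1 (by positivity)
        (by positivity)
    have e5 : θ * ((1 / y) * 1152 * (l / 3)) = 384 := by
      rw [hy]
      field_simp
      norm_num
    rw [e5] at e3
    linarith
  · have e1 : Real.log (4608 * (1152 * (m : ℝ) ^ 2)) ≤ 28 * l := by
      rw [harg]
      have e2 : Real.log m ≤ Real.log 3 + Real.log z := by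
        rw [← Real.log_mul (by norm_num) (by linarith)]
        exact Real.log_le_log hmpos hmz'
      have e3 : Real.log 3 ≤ 2 * Real.log 2 := by
        rw [show (2 : ℝ) * Real.log 2 = ((2 : ℕ) : ℝ) * Real.log 2 by norm_num, ← Real.log_pow]
        exact Real.log_le_log (by norm_num) (by norm_num)
      have e4 : -Real.log y ≤ l := by
        have e5 : Real.log (1 / 2) ≤ Real.log l := Real.log_le_log (by norm_num) (by linarith)
        rw [Real.log_div (by norm_num) (by norm_num), Real.log_one] at e5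
        linarith
      linarith
    have e6 : (m : ℝ) ^ 2 ≤ 9 * z ^ 2 := by
      calc (m : ℝ) ^ 2 ≤ (3 * z) ^ 2 := pow_le_pow_left₀ hmpos.le hmz' 2
        _ = 9 * z ^ 2 := by ring
    have e7 : l ^ (-(2 / 3) : ℝ) * l = l ^ ((1 / 3) : ℝ) := by
      nth_rewrite 2 [← Real.rpow_one l]
      rw [← Real.rpow_add hlpos]
      norm_num
    have e8 : 0 ≤ Real.log (4608 * (1152 * (m : ℝ) ^ 2)) := by
      rw [harg]
      have : 0 ≤ Real.log m := Real.log_nonneg (by linarith)
      linarith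
    calc 4 * ((1152 * (m : ℝ) ^ 2) * Real.log (4608 * (1152 * (m : ℝ) ^ 2)))
        ≤ 4 * ((1152 * (9 * z ^ 2)) * (28 * l)) := by
          apply mul_le_mul_of_nonneg_left _ (by norm_num)
          apply mul_le_mul _ e1 e8 (by positivity)
          linarith
      _ = 1161216 * θ ^ (-(2 / 3) : ℝ) * (l ^ (-(2 / 3) : ℝ) * l) := by rw [hz2]; ring
      _ = 1161216 * θ ^ (-(2 / 3) : ℝ) * l ^ ((1 / 3) : ℝ) := by rw [e7]

theorem main_bound (θ : ℝ) (h0 : 0 < θ) (h1 : θ < 1) : ∃ L : ℕ, ell θ ≤ (L : ℕ∞) ∧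
    (L : ℝ) ≤ Real.exp (1161216 * θ ^ (-(2 / 3) : ℝ) * Real.log (2 / θ) ^ ((1 / 3) : ℝ)) := by
  obtain ⟨m, hm, hm1, hm2⟩ := choose_m θ h0 h1
  obtain ⟨b, L, D, hb, hL, hD, hcard, hlogb, hlogL, hAP⟩ := exists_D m hm
  refine ⟨L, ?_, ?_⟩
  · apply ell_le_of_base θ h0 h1 D b L hb hL hD hcard _ hAP
    exact le_trans hm1 (mul_le_mul_of_nonneg_left hlogb h0.le)
  · have hLpos : (0 : ℝ) < L := by
      have : 0 < L := by omega
      exact_mod_cast this
    rw [← Real.exp_log hLpos, hlogL]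
    exact Real.exp_le_exp.mpr hm2

end Pool.Agent.Lib.MP_56a425_co
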