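import Pool.Agent.Lib.MP_56a425_co.Defs

/-!
Sets of integers with small digits in a prime base: sumsets without long progressions, and
their size.
-/

namespace Pool.Agent.Lib.MP_56a425_co

open Finset

/-- all digits of `x` in base `p` are less than `q` -/
def Dg (p q x : ℕ) : Prop := ∀ i : ℕ, x / p ^ i % p < q

theorem Dg.low {p q x : ℕ} (h : Dg p q x) : x % p < q := by
  have := h 0
  rwa [pow_zero, Nat.div_one] at this

theorem Dg.high {p q x : ℕ} (h : Dg p q x) : Dg p q (x / p) := by
  intro i
  have := h (i + 1)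
  rwa [pow_succ', ← Nat.div_div_eq_div_mul] at this

/-- no progression of length `p - 1` in the sumset -/
theorem no_ap {p q : ℕ} (hp : p.Prime) (hq : 2 * q + 1 ≤ p) (hp5 : 5 ≤ p) (d : ℕ) : 0 < d →
    ∀ a : ℕ, ¬ ∀ j < p - 1, ∃ x y : ℕ, Dg p q x ∧ Dg p q y ∧ a + j * d = x + y := by
  induction d using Nat.strong_induction_on with
  | _ d ih =>
    intro hd a hall
    have hres : ∀ j < p - 1, (a + j * d) % p < p - 2 := by
      intro j hj
      obtain ⟨x, y, hx, hy, h⟩ := hall j hj
      have h1 := hx.low
      have h2 := hy.low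
      rw [h, Nat.add_mod, Nat.mod_eq_of_lt (by omega)]
      omega
    by_cases hpd : p ∣ d
    · obtain ⟨e, rfl⟩ := hpd
      have he : 0 < e := Nat.pos_of_mul_pos_left hd |> fun _ => by
        rcases Nat.eq_zero_or_pos e with h | h
        · rw [h] at hd; simp at hd
        · exact h
      refine ih e ?_ he (a / p) ?_
      · have : 1 < p := hp.one_lt
        nlinarith
      · intro j hj
        obtain ⟨x, y, hx, hy, h⟩ := hall j hj
        refine ⟨x / p, y / p, hx.high, hy.high, ?_⟩
        have h1 := hx.low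
        have h2 := hy.low
        have h3 : (a + j * (p * e)) / p = a / p + j * e := by
          rw [show j * (p * e) = p * (j * e) by ring, Nat.add_mul_div_left _ _ hp.pos]
        have h4 : (x + y) / p = x / p + y / p := by
          rw [Nat.add_div hp.pos, if_neg (by omega)]
          omega
        rw [← h3, ← h4, h]
    · have hinj : Set.InjOn (fun j => (a + j * d) % p) (range (p - 1) : Set ℕ) := by
        intro i hi j hj hij
        have hi' : i < p := by
          have := mem_range.mp (mem_coe.mp hi)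
          omega
        have hj' : j < p := by
          have := mem_range.mp (mem_coe.mp hj)
          omega
        have h1 : (a + i * d) ≡ (a + j * d) [MOD p] := hij
        have h2 : i * d ≡ j * d [MOD p] := Nat.ModEq.add_left_cancel' a h1
        have h3 : i ≡ j [MOD p] := Nat.ModEq.cancel_right_of_coprime
          ((Nat.Prime.coprime_iff_not_dvd hp).mpr hpd) h2
        have h4 : i % p = j % p := h3
        rwa [Nat.mod_eq_of_lt hi', Nat.mod_eq_of_lt hj'] at h4
      have hmaps : ∀ j ∈ range (p - 1), (a + j * d) % p ∈ range (p - 2) := by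
        intro j hj
        exact mem_range.mpr (hres j (mem_range.mp hj))
      have h1 := card_le_card_of_injOn _ hmaps hinj
      rw [card_range, card_range] at h1
      omega

open Classical in
/-- the number of integers below `N` with all digits less than `q` -/
noncomputable def cnt (p q N : ℕ) : ℕ := ((range N).filter (Dg p q)).card

theorem cnt_mono {p q M N : ℕ} (h : M ≤ N) : cnt p q M ≤ cnt p q N := by
  classical
  unfold cnt
  apply card_le_card
  intro x hx
  rw [mem_filter, mem_range] at hx ⊢
  exact ⟨by omega, hx.2⟩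

theorem Dg.block {p q n k x : ℕ} (hp : 0 < p) (hqp : q ≤ p) (hk : k < q) (hx : x < p ^ n)
    (h : Dg p q x) : Dg p q (k * p ^ n + x) := by
  intro i
  rcases lt_trichotomy i n with hi | hi | hi
  · obtain ⟨m, rfl⟩ : ∃ m, n = i + (m + 1) := ⟨n - i - 1, by omega⟩
    have h1 : k * p ^ (i + (m + 1)) + x = x + p ^ i * (k * p ^ (m + 1)) := by ring
    rw [h1, Nat.add_mul_div_left _ _ (by positivity)]
    have h2 : k * p ^ (m + 1) = p * (k * p ^ m) := by ring
    rw [h2, Nat.add_mul_mod_self_left]
    exact h i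
  · subst hi
    have h1 : (k * p ^ i + x) / p ^ i = k := by
      rw [add_comm, Nat.add_mul_div_right _ _ (by positivity), Nat.div_eq_of_lt hx, zero_add]
    rw [h1, Nat.mod_eq_of_lt (by omega)]
    exact hk
  · have h1 : (k * p ^ n + x) / p ^ i = 0 := by
      apply Nat.div_eq_of_lt
      have h2 : k * p ^ n + x < p ^ (n + 1) := by
        have h3 : k + 1 ≤ p := by omega
        calc k * p ^ n + x < k * p ^ n + p ^ n := by omega
          _ = (k + 1) * p ^ n := by ring
          _ ≤ p * p ^ n := Nat.mul_le_mul_right _ h3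
          _ = p ^ (n + 1) := by ring
      exact lt_of_lt_of_le h2 (Nat.pow_le_pow_right hp (by omega))
    rw [h1, Nat.zero_mod]
    omega

/-- adding one block -/
theorem cnt_block {p q n k r : ℕ} (hp : 0 < p) (hqp : q ≤ p) (hk : k < q) (hr : r ≤ p ^ n) :
    cnt p q (k * p ^ n) + cnt p q r ≤ cnt p q (k * p ^ n + r) := by
  classical
  unfold cnt
  have hinj : Function.Injective (fun x : ℕ => k * p ^ n + x) := fun a b h => by simpa using h
  rw [← card_image_of_injective ((range r).filter (Dg p q)) hinj, ← card_union_of_disjoint]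
  · apply card_le_card
    intro x hx
    rcases mem_union.mp hx with hx | hx
    · rw [mem_filter, mem_range] at hx ⊢
      exact ⟨by omega, hx.2⟩
    · obtain ⟨y, hy, rfl⟩ := mem_image.mp hx
      rw [mem_filter, mem_range] at hy
      rw [mem_filter, mem_range]
      exact ⟨by omega, hy.2.block hp hqp hk (by omega)⟩
  · rw [disjoint_left]
    intro x hx hx'
    obtain ⟨y, _, rfl⟩ := mem_image.mp hx'
    rw [mem_filter, mem_range] at hx
    omega

theorem cnt_mul {p q n : ℕ} (hp : 0 < p) (hqp : q ≤ p) (k : ℕ) (hk : k ≤ q) :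
    k * cnt p q (p ^ n) ≤ cnt p q (k * p ^ n) := by
  induction k with
  | zero => simp
  | succ k ih =>
    have h1 := ih (by omega)
    have h2 := cnt_block (n := n) hp hqp (show k < q by omega) (le_refl (p ^ n))
    have h3 : (k + 1) * p ^ n = k * p ^ n + p ^ n := by ring
    rw [h3]
    calc (k + 1) * cnt p q (p ^ n) = k * cnt p q (p ^ n) + cnt p q (p ^ n) := by ring
      _ ≤ _ := by omega

theorem cnt_pow {p q : ℕ} (hp : 0 < p) (hq : 0 < q) (hqp : q ≤ p) (n : ℕ) :
    q ^ n ≤ cnt p q (p ^ n) := by
  induction n with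
  | zero =>
    rw [pow_zero, pow_zero]
    classical
    unfold cnt
    refine Nat.succ_le_of_lt (card_pos.mpr ⟨0, ?_⟩)
    rw [mem_filter, mem_range]
    refine ⟨Nat.one_pos, fun i => ?_⟩
    rw [Nat.zero_div, Nat.zero_mod]
    exact hq
  | succ n ih =>
    have h1 := cnt_mul (n := n) hp hqp q le_rfl
    calc q ^ (n + 1) = q * q ^ n := by ring
      _ ≤ q * cnt p q (p ^ n) := Nat.mul_le_mul_left _ ih
      _ ≤ cnt p q (q * p ^ n) := h1
      _ ≤ cnt p q (p ^ (n + 1)) := cnt_mono (by
          calc q * p ^ n ≤ p * p ^ n := Nat.mul_le_mul_right _ hqp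
            _ = p ^ (n + 1) := by ring)

/-- the count is at least `N ^ s`, `s = log q / log p` -/
theorem cnt_ge {p q : ℕ} (hq : 2 ≤ q) (hqp : q ≤ p) {s : ℝ} (hs0 : 0 < s) (hs1 : s ≤ 1)
    (hs : (p : ℝ) ^ s = q) (N : ℕ) : (N : ℝ) ^ s ≤ cnt p q N := by
  have hp : 0 < p := by omega
  have hp1 : 1 < p := by omega
  induction N using Nat.strong_induction_on with
  | _ N ih =>
    rcases Nat.eq_zero_or_pos N with rfl | hN
    · rw [Nat.cast_zero, Real.zero_rpow hs0.ne']
      exact Nat.cast_nonneg _
    set n := Nat.log p N with hn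
    have h1 : p ^ n ≤ N := Nat.pow_log_le_self p (by omega)
    have h2 : N < p ^ (n + 1) := Nat.lt_pow_succ_log_self hp1 N
    have hPpos : 0 < p ^ n := by positivity
    set c := N / p ^ n with hc
    set r := N % p ^ n with hr
    have hNe : N = c * p ^ n + r := by
      rw [hc, hr, mul_comm]
      exact (Nat.div_add_mod _ _).symm
    have hrlt : r < p ^ n := Nat.mod_lt _ hPpos
    have hc1 : 1 ≤ c := (Nat.one_le_div_iff hPpos).mpr h1
    have hPs : ((p ^ n : ℕ) : ℝ) ^ s = (q : ℝ) ^ n := by
      rw [Nat.cast_pow, ← Real.rpow_natCast, ← Real.rpow_mul (Nat.cast_nonneg p), mul_comm,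
        Real.rpow_mul (Nat.cast_nonneg p), hs, Real.rpow_natCast]
    have hcq : (q : ℝ) ^ n ≤ cnt p q (p ^ n) := by
      exact_mod_cast cnt_pow hp (by omega) hqp n
    by_cases hcase : q ≤ c
    · have h3 := cnt_mul (n := n) hp hqp q le_rfl
      have h4 : cnt p q (q * p ^ n) ≤ cnt p q N := cnt_mono (by
        rw [hNe]
        exact le_trans (Nat.mul_le_mul_right _ hcase) (Nat.le_add_right _ _))
      have h5 : (N : ℝ) ^ s ≤ (q : ℝ) ^ (n + 1) := by
        have h6 : (N : ℝ) ^ s ≤ (((p ^ n : ℕ) : ℝ) * p) ^ s := by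
          apply Real.rpow_le_rpow (Nat.cast_nonneg _) _ hs0.le
          have : (N : ℝ) ≤ ((p ^ (n + 1) : ℕ) : ℝ) := by exact_mod_cast h2.le
          rw [pow_succ] at this
          push_cast at this ⊢
          exact this
        rw [Real.mul_rpow (Nat.cast_nonneg _) (Nat.cast_nonneg _), hPs, hs, ← pow_succ] at h6
        exact h6
      have h7 : (q : ℝ) ^ (n + 1) ≤ cnt p q N := by
        have h8 : (q * cnt p q (p ^ n) : ℕ) ≤ cnt p q N := h3.trans h4
        have h9 : ((q * cnt p q (p ^ n) : ℕ) : ℝ) ≤ cnt p q N := by exact_mod_cast h8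
        refine le_trans ?_ h9
        push_cast
        rw [pow_succ, mul_comm]
        exact mul_le_mul_of_nonneg_left hcq (Nat.cast_nonneg _)
      exact h5.trans h7
    · push Not at hcase
      have hrN : r < N := by omega
      have h3 := ih r hrN
      have h4 := cnt_block (n := n) hp hqp hcase hrlt.le
      have h5 := cnt_mul (n := n) hp hqp c hcase.le
      have h6 : (N : ℝ) ^ s ≤ (((c * p ^ n : ℕ) : ℝ)) ^ s + (r : ℝ) ^ s := by
        have h7 := Real.rpow_add_le_add_rpow (Nat.cast_nonneg (c * p ^ n)) (Nat.cast_nonneg r)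
          hs0.le hs1
        rw [← Nat.cast_add, ← hNe] at h7
        exact h7
      have h8 : (((c * p ^ n : ℕ) : ℝ)) ^ s ≤ c * (q : ℝ) ^ n := by
        rw [Nat.cast_mul, Real.mul_rpow (Nat.cast_nonneg _) (Nat.cast_nonneg _), hPs]
        apply mul_le_mul_of_nonneg_right _ (by positivity)
        have h9 : (1 : ℝ) ≤ c := by exact_mod_cast hc1
        calc (c : ℝ) ^ s ≤ (c : ℝ) ^ (1 : ℝ) := Real.rpow_le_rpow_of_exponent_le h9 hs1
          _ = c := Real.rpow_one _
      have h10 : (c : ℝ) * (q : ℝ) ^ n ≤ c * cnt p q (p ^ n) :=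
        mul_le_mul_of_nonneg_left hcq (Nat.cast_nonneg _)
      have h11 : ((c * cnt p q (p ^ n) + cnt p q r : ℕ) : ℝ) ≤ cnt p q N := by
        have : c * cnt p q (p ^ n) + cnt p q r ≤ cnt p q N := by
          calc c * cnt p q (p ^ n) + cnt p q r ≤ cnt p q (c * p ^ n) + cnt p q r := by omega
            _ ≤ cnt p q (c * p ^ n + r) := h4
            _ = cnt p q N := by rw [← hNe]
        exact_mod_cast this
      push_cast at h11
      linarith

end Pool.Agent.Lib.MP_56a425_co
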