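import Pool.Agent.Lib.MP_56a425_co.Prime

/-!
Bounds for `ell θ` from prime bases, and the trivial lower bound three.
-/

namespace Pool.Agent.Lib.MP_56a425_co

open Finset
open scoped Pointwise

theorem ell_le_prime {p : ℕ} (hp : p.Prime) (hp5 : 5 ≤ p) {θ : ℝ}
    (hθ : 1 - Real.log (((p : ℝ) - 1) / 2) / Real.log p ≤ θ) :
    ell θ ≤ ((p - 2 : ℕ) : ℕ∞) := by
  classical
  obtain ⟨q, hq⟩ : ∃ q, p = 2 * q + 1 := by
    rcases hp.eq_two_or_odd' with h | h
    · omega
    · exact h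
  have hq2 : 2 ≤ q := by omega
  have hqr : ((p : ℝ) - 1) / 2 = q := by
    rw [hq]; push_cast; ring
  have hpR : (1 : ℝ) < p := by exact_mod_cast hp.one_lt
  have hqR : (1 : ℝ) < q := by exact_mod_cast (by omega : 1 < q)
  have hlp : 0 < Real.log p := Real.log_pos hpR
  have hlq : 0 < Real.log q := Real.log_pos hqR
  rw [hqr] at hθ
  set s : ℝ := Real.log q / Real.log p with hs
  have hs0 : 0 < s := div_pos hlq hlp
  have hs1 : s ≤ 1 := by
    rw [hs, div_le_one hlp]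
    exact Real.log_le_log (by linarith) (by exact_mod_cast (by omega : q ≤ p))
  have hps : (p : ℝ) ^ s = q := by
    rw [Real.rpow_def_of_pos (by linarith), hs, mul_div_cancel₀ _ hlp.ne',
      Real.exp_log (by linarith)]
  unfold ell
  refine Filter.limsup_le_of_le (by isBoundedDefault) ?_
  rw [Filter.eventually_atTop]
  refine ⟨1, fun N hN => ?_⟩
  have hcount := cnt_ge hq2 (by omega : q ≤ p) hs0 hs1 hps N
  have hN1 : (1 : ℝ) ≤ N := by exact_mod_cast hN
  have hfl : ⌊(N : ℝ) ^ (1 - θ)⌋₊ ≤ ((range N).filter (Dg p q)).card := by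
    have h1 : (N : ℝ) ^ (1 - θ) ≤ (((range N).filter (Dg p q)).card : ℕ) := by
      refine le_trans (Real.rpow_le_rpow_of_exponent_le hN1 (by linarith)) (hcount.trans ?_)
      unfold cnt
      exact le_of_eq (by congr)
    calc ⌊(N : ℝ) ^ (1 - θ)⌋₊ ≤ ⌊((((range N).filter (Dg p q)).card : ℕ) : ℝ)⌋₊ :=
          Nat.floor_le_floor h1
      _ = _ := Nat.floor_natCast _
  obtain ⟨A', hA', hA'c⟩ := exists_subset_card_eq hfl
  have hinj : Function.Injective (fun x : ℕ => (x : ℤ) + 1) := fun x y h => by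
    simpa using h
  have hmem : A'.image (fun x : ℕ => (x : ℤ) + 1) ∈ {A : Finset ℤ | A ⊆ Icc 1 (N : ℤ) ∧
      A.card = ⌊(N : ℝ) ^ (1 - θ)⌋₊} := by
    refine ⟨?_, ?_⟩
    · intro x hx
      obtain ⟨y, hy, rfl⟩ := mem_image.mp hx
      have h2 := mem_range.mp (mem_filter.mp (hA' hy)).1
      rw [mem_Icc]
      omega
    · rw [card_image_of_injective _ hinj, hA'c]
  refine le_trans (iInf₂_le _ hmem) ?_
  have h5 : ¬ HasAP (A'.image (fun x : ℕ => (x : ℤ) + 1) + A'.image (fun x : ℕ => (x : ℤ) + 1))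
      (p - 1) := by
    rintro ⟨a, d, hd, hall⟩
    have hrep : ∀ j < p - 1, ∃ x y : ℕ, Dg p q x ∧ Dg p q y ∧
        a + j * d = (x : ℤ) + 1 + ((y : ℤ) + 1) := by
      intro j hj
      obtain ⟨y, hy, z, hz, he⟩ := mem_add.mp (hall j hj)
      obtain ⟨y', hy', rfl⟩ := mem_image.mp hy
      obtain ⟨z', hz', rfl⟩ := mem_image.mp hz
      exact ⟨y', z', (mem_filter.mp (hA' hy')).2, (mem_filter.mp (hA' hz')).2, he.symm⟩
    obtain ⟨x0, y0, _, _, h0⟩ := hrep 0 (by omega)
    obtain ⟨D, rfl⟩ : ∃ D : ℕ, d = (D : ℤ) := ⟨d.toNat, by omega⟩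
    refine no_ap (q := q) hp hq.ge hp5 D (by omega) (x0 + y0) ?_
    intro j hj
    obtain ⟨x, y, hx, hy, h⟩ := hrep j hj
    refine ⟨x, y, hx, hy, ?_⟩
    have h3 : ((x0 + y0 + j * D : ℕ) : ℤ) = ((x + y : ℕ) : ℤ) := by
      push_cast
      push_cast at h0
      linarith
    exact_mod_cast h3
  have h6 := (lp_lt_iff _ _).2 h5
  have h7 : lp (A'.image (fun x : ℕ => (x : ℤ) + 1) + A'.image (fun x : ℕ => (x : ℤ) + 1))
      ≤ p - 2 := by omega
  exact_mod_cast h7

theorem three_le_ell {θ : ℝ} (hθ : θ < 1) : 3 ≤ ell θ := by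
  unfold ell
  refine Filter.le_limsup_of_frequently_le (Filter.Eventually.frequently ?_) (by isBoundedDefault)
  have h1 : Filter.Tendsto (fun N : ℕ => (N : ℝ) ^ (1 - θ)) Filter.atTop Filter.atTop :=
    (tendsto_rpow_atTop (by linarith)).comp tendsto_natCast_atTop_atTop
  filter_upwards [h1.eventually_ge_atTop 2] with N hN
  refine le_iInf₂ fun A hA => ?_
  have hc : 1 < A.card := by
    rw [hA.2]
    have : 2 ≤ ⌊(N : ℝ) ^ (1 - θ)⌋₊ := Nat.le_floor (by exact_mod_cast hN)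
    omega
  obtain ⟨x, hx, y, hy, hxy⟩ := one_lt_card.mp hc
  have h2 : HasAP (A + A) 3 := by
    refine hasAP_of_ne (2 * x) (y - x) (sub_ne_zero.mpr hxy.symm) fun j hj => ?_
    interval_cases j
    · have : (2 * x + ((0 : ℕ) : ℤ) * (y - x)) = x + x := by push_cast; ring
      rw [this]
      exact add_mem_add hx hx
    · have : (2 * x + ((1 : ℕ) : ℤ) * (y - x)) = x + y := by push_cast; ring
      rw [this]
      exact add_mem_add hx hy
    · have : (2 * x + ((2 : ℕ) : ℤ) * (y - x)) = y + y := by push_cast; ring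
      rw [this]
      exact add_mem_add hy hy
  have h3 := (le_lp_iff _ _).2 h2
  exact_mod_cast h3

end Pool.Agent.Lib.MP_56a425_co
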